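import Pool.Agent.Work.MP_bde882_al_h40.Rep

/-!
Matrix times vector with permuted rows (helper5's stride), folding at an arbitrary cut.
-/

set_option autoImplicit false

namespace Pool.Agent.Work.MP_bde882_al.Pk

open Finset

/-- position of the row slot `i` -/
def slot (K N i : ℕ) : ℕ := (K * i + (K - 1)) % N

theorem slot_lt {K N i : ℕ} (hN : 0 < N) : slot K N i < N := Nat.mod_lt _ hN

theorem slot_inj {K N : ℕ} (h : Nat.Coprime K N) : Set.InjOn (slot K N) (range N : Set ℕ) := by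
  intro i hi j hj hij
  have hi : i < N := by simpa using hi
  have hj : j < N := by simpa using hj
  have h1 : K * i + (K - 1) ≡ K * j + (K - 1) [MOD N] := hij
  have h2 : K * i ≡ K * j [MOD N] := Nat.ModEq.add_right_cancel' (K - 1) h1
  have h3 : i ≡ j [MOD N] := Nat.ModEq.cancel_left_of_coprime (by
    rw [Nat.coprime_comm] at h
    exact h) h2
  have h4 : i % N = j % N := h3
  rwa [Nat.mod_eq_of_lt hi, Nat.mod_eq_of_lt hj] at h4

theorem slot_image {K N : ℕ} (h : Nat.Coprime K N) : (range N).image (slot K N) = range N := by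
  refine eq_of_subset_of_card_le ?_ ?_
  · intro x hx
    obtain ⟨i, hi, rfl⟩ := mem_image.1 hx
    have := mem_range.1 hi
    exact mem_range.2 (slot_lt (by omega))
  · rw [card_image_of_injOn (slot_inj h)]

theorem sum_slot {K N : ℕ} (h : Nat.Coprime K N) (f : ℕ → ℕ) :
    ∑ i ∈ range N, f (slot K N i) = ∑ j ∈ range N, f j := by
  conv_rhs => rw [← slot_image h]
  rw [sum_image (fun i hi j hj => slot_inj h hi hj)]

theorem lanes_lt_sub_one (W : ℕ) (d : ℕ → ℕ) (r : ℕ) (hr : 0 < r) (hd : ∀ i < r, d i + 1 < 2 ^ W) :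
    lanes W d r < 2 ^ (W * r) - 1 := by
  have h1 : lanes W (fun i => d i + 1) r < 2 ^ (W * r) := lanes_lt _ _ _ hd
  have h2 : lanes W d r + 1 ≤ lanes W (fun i => d i + 1) r := by
    have e : lanes W (fun i => d i + 1) r = lanes W d r + lanes W (fun _ => 1) r := by
      rw [lanes_add]
    rw [e]
    obtain ⟨q, rfl⟩ : ∃ q, r = q + 1 := ⟨r - 1, by omega⟩
    rw [lanes_succ' W (fun _ => 1)]
    omega
  omega

/-- gathering the row results by a residue, rows permuted -/
theorem gather_perm (W K N : ℕ) (d : ℕ → ℕ) (_hK : 1 ≤ K) (h : Nat.Coprime K N)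
    (hd : ∀ i < N, d i + 1 < 2 ^ W) :
    lanes (W * K) (fun i => 2 ^ (W * (K - 1)) * d (slot K N i)) N % (2 ^ (W * N) - 1) = lanes W d N := by
  rcases Nat.eq_zero_or_pos N with rfl | hN
  · simp [lanes]
  have hmod : lanes (W * K) (fun i => 2 ^ (W * (K - 1)) * d (slot K N i)) N ≡ lanes W d N
      [MOD (2 ^ (W * N) - 1)] := by
    have h1 : 2 ^ (W * N) ≡ 1 [MOD (2 ^ (W * N) - 1)] := by
      have h2 : 1 ≤ 2 ^ (W * N) := Nat.one_le_two_pow
      exact ((Nat.modEq_iff_dvd' h2).2 dvd_rfl).symm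
    have h0 : ∀ s : ℕ, (∑ i ∈ range s, 2 ^ (W * (K - 1)) * d (slot K N i) * 2 ^ (W * K * i))
        ≡ ∑ i ∈ range s, d (slot K N i) * 2 ^ (W * slot K N i) [MOD (2 ^ (W * N) - 1)] := by
      intro s
      induction s with
      | zero => exact Nat.ModEq.refl _
      | succ s ih =>
        rw [sum_range_succ, sum_range_succ]
        refine Nat.ModEq.add ih ?_
        set q := (K * s + (K - 1)) / N with hq
        have e0 : N * q + slot K N s = K * s + (K - 1) := by
          rw [hq, slot]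
          exact Nat.div_add_mod _ _
        have e1 : 2 ^ (W * (K - 1)) * d (slot K N s) * 2 ^ (W * K * s)
            = (2 ^ (W * N)) ^ q * (d (slot K N s) * 2 ^ (W * slot K N s)) := by
          have e2 : 2 ^ (W * (K - 1)) * 2 ^ (W * K * s) = (2 ^ (W * N)) ^ q * 2 ^ (W * slot K N s) := by
            rw [← pow_mul, ← pow_add, ← pow_add]
            congr 1
            calc W * (K - 1) + W * K * s = W * (K * s + (K - 1)) := by ring
              _ = W * (N * q + slot K N s) := by rw [e0]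
              _ = W * N * q + W * slot K N s := by ring
          calc 2 ^ (W * (K - 1)) * d (slot K N s) * 2 ^ (W * K * s)
              = 2 ^ (W * (K - 1)) * 2 ^ (W * K * s) * d (slot K N s) := by ring
            _ = (2 ^ (W * N)) ^ q * 2 ^ (W * slot K N s) * d (slot K N s) := by rw [e2]
            _ = _ := by ring
        rw [e1]
        have h3 := (h1.pow q).mul_right (d (slot K N s) * 2 ^ (W * slot K N s))
        rwa [one_pow, one_mul] at h3
    have h4 := h0 N
    rw [sum_slot h (fun j => d j * 2 ^ (W * j))] at h4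
    exact h4
  rw [hmod, Nat.mod_eq_of_lt (lanes_lt_sub_one W d N hN hd)]

/-- **Matrix times vector**, rows permuted. -/
theorem mv_spec2 (W K N k a0 y0 : ℕ) (a v : ℕ → ℕ) (m : ℕ → ℕ → ℕ) (hK : 1 ≤ K) (hk : k ≤ K)
    (hc : Nat.Coprime K N)
    (ha : ∀ l < K * N, a l ≤ a0) (hv : ∀ t < k, v t ≤ y0) (hb : k * (a0 * y0) + 1 < 2 ^ W)
    (hm : ∀ i < N, ∀ t < k, a (K * i + (K - 1) - t) = m (slot K N i) t) :
    ((lanes W a (K * N) * lanes W v k) &&& topMask W K N) % (2 ^ (W * N) - 1)
      = lanes W (fun i => ∑ t ∈ range k, m i t * v t) N := by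
  have hbd : ∀ l, (∑ t ∈ range k, if t ≤ l ∧ l - t < K * N then a (l - t) * v t else 0) ≤ k * (a0 * y0) := by
    intro l
    have h1 : (∑ t ∈ range k, if t ≤ l ∧ l - t < K * N then a (l - t) * v t else 0)
        ≤ ∑ _t ∈ range k, a0 * y0 := by
      refine sum_le_sum ?_
      intro t ht
      split_ifs with h
      · exact Nat.mul_le_mul (ha _ h.2) (hv t (mem_range.1 ht))
      · exact Nat.zero_le _
    simpa using h1
  have hrow : ∀ i < N, (∑ t ∈ range k, if t ≤ K * i + (K - 1) ∧ K * i + (K - 1) - t < K * N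
      then a (K * i + (K - 1) - t) * v t else 0) = ∑ t ∈ range k, m (slot K N i) t * v t := by
    intro i hi
    refine sum_congr rfl ?_
    intro t ht
    have ht := mem_range.1 ht
    have h1 : K * (i + 1) ≤ K * N := Nat.mul_le_mul_left _ hi
    rw [Nat.mul_succ] at h1
    rw [if_pos ⟨by omega, by omega⟩, hm i hi t ht]
  rw [lanes_mul_lanes', land_topMask _ _ _ _ _ hK (fun l _ => by
    have := hbd l
    omega)]
  rw [lanes_congr (W * K) (b := fun i => 2 ^ (W * (K - 1)) *
    (fun j => ∑ t ∈ range k, m j t * v t) (slot K N i)) (fun i hi => by rw [hrow i hi])]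
  refine gather_perm W K N (fun j => ∑ t ∈ range k, m j t * v t) hK hc ?_
  intro j hj
  obtain ⟨i, hi, rfl⟩ : ∃ i ∈ range N, slot K N i = j := by
    have : j ∈ (range N).image (slot K N) := by
      rw [slot_image hc]
      exact mem_range.2 hj
    simpa using this
  have h1 := hbd (K * i + (K - 1))
  rw [hrow i (mem_range.1 hi)] at h1
  change (∑ t ∈ range k, m (slot K N i) t * v t) + 1 < 2 ^ W
  omega

/-- `A` packs the matrix `M` (`N` rows, `k` columns) with permuted rows at stride `K` -/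
def PRep (W K N k c A : ℕ) (M : ℕ → ℕ → ZMod 7) : Prop :=
  ∃ a : ℕ → ℕ, A = lanes W a (K * N) ∧ (∀ l < K * N, a l ≤ c) ∧
    ∀ i < N, ∀ t < k, ((a (K * i + (K - 1) - t) : ℕ) : ZMod 7) = M (slot K N i) t

/-- **Soundness of the packed product**, rows permuted. -/
theorem Rep.mv2 {W K N k c b A y : ℕ} {M : ℕ → ℕ → ZMod 7} {v : ℕ → ZMod 7}
    (hM : PRep W K N k c A M) (hy : Rep W k b y v) (hK : 1 ≤ K) (hk : k ≤ K) (hc : Nat.Coprime K N)
    (hb : k * (c * b) + 1 < 2 ^ W) :
    Rep W N (k * (c * b)) (Pk.mv (topMask W K N) (2 ^ (W * N) - 1) A y)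
      (fun i => ∑ t ∈ range k, M i t * v t) := by
  obtain ⟨a, eA, ha, haM⟩ := hM
  obtain ⟨u, eu, hu⟩ := hy
  -- the inverse of the slot map
  have hinv : ∀ j, ∃ i, j < N → (i < N ∧ slot K N i = j) := by
    intro j
    by_cases hj : j < N
    · have : j ∈ (range N).image (slot K N) := by
        rw [slot_image hc]
        exact mem_range.2 hj
      obtain ⟨i, hi, e⟩ := mem_image.1 this
      exact ⟨i, fun _ => ⟨mem_range.1 hi, e⟩⟩
    · exact ⟨0, fun h => absurd h hj⟩
  choose g hg using hinv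
  have hgs : ∀ i < N, g (slot K N i) = i := by
    intro i hi
    have h1 := hg (slot K N i) (slot_lt (by omega))
    exact slot_inj hc (by simpa using h1.1) (by simpa using hi) h1.2
  have hin : ∀ i < N, ∀ t < k, K * i + (K - 1) - t < K * N := by
    intro i hi t ht
    have h1 : K * (i + 1) ≤ K * N := Nat.mul_le_mul_left _ hi
    rw [Nat.mul_succ] at h1
    omega
  refine ⟨fun j => ∑ t ∈ range k, a (K * g j + (K - 1) - t) * u t, ?_, ?_⟩
  · have := mv_spec2 W K N k c b a u (fun j t => a (K * g j + (K - 1) - t)) hK hk hc ha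
      (fun t ht => (hu t ht).1) hb (fun i hi t _ => by rw [hgs i hi])
    rw [← eA, ← eu] at this
    exact this
  · intro j hj
    obtain ⟨h1, h2⟩ := hg j hj
    constructor
    · calc ∑ t ∈ range k, a (K * g j + (K - 1) - t) * u t ≤ ∑ _t ∈ range k, c * b := by
            refine sum_le_sum ?_
            intro t ht
            have ht := mem_range.1 ht
            exact Nat.mul_le_mul (ha _ (hin _ h1 t ht)) (hu t ht).1
        _ = k * (c * b) := by simp
    · push_cast
      refine sum_congr rfl ?_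
      intro t ht
      have ht := mem_range.1 ht
      rw [haM _ h1 t ht, (hu t ht).2, h2]

theorem PRep.congr {W K N k c A : ℕ} {M M' : ℕ → ℕ → ZMod 7} (h : PRep W K N k c A M)
    (hM : ∀ i < N, ∀ t < k, M i t = M' i t) : PRep W K N k c A M' := by
  obtain ⟨a, e, ha, hm⟩ := h
  exact ⟨a, e, ha, fun i hi t ht => (hm i hi t ht).trans (hM _ (slot_lt (by omega)) t ht)⟩

/-- the lanes of a packed matrix are the entries -/
theorem PRep.lane_eq {W K N k c A : ℕ} {M : ℕ → ℕ → ZMod 7} (h : PRep W K N k c A M) (hc : c < 2 ^ W)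
    (hk : k ≤ K) {i t : ℕ} (hi : i < N) (ht : t < k) :
    ((lane W A (K * i + (K - 1) - t) : ℕ) : ZMod 7) = M (slot K N i) t := by
  obtain ⟨a, e, ha, hm⟩ := h
  have hi' : K * (i + 1) ≤ K * N := Nat.mul_le_mul_left _ hi
  rw [Nat.mul_succ] at hi'
  rw [e, lane_lanes W a _ _ (by omega) (fun j hj => lt_of_le_of_lt (ha j hj) hc), hm i hi t ht]

/-- **Folding at any cut** `s ≤ W`. -/
theorem fold_spec' (W s n : ℕ) (hs : s ≤ W) (a : ℕ → ℕ) (ha : ∀ i < n, a i < 2 ^ W) :
    (lanes W a n &&& lanes W (fun _ => 2 ^ s - 1) n)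
      + ((lanes W a n / 2 ^ s) &&& lanes W (fun _ => 2 ^ (W - s) - 1) n)
      = lanes W (fun i => a i % 2 ^ s + a i / 2 ^ s) n := by
  have h2 : 2 ^ s ≤ 2 ^ W := Nat.pow_le_pow_right (by norm_num) hs
  have h1 : 2 ^ s - 1 < 2 ^ W := by
    have h3 : 1 ≤ 2 ^ s := Nat.one_le_two_pow
    omega
  have hM : lanes W (fun _ => 2 ^ (W - s) - 1) n * 2 ^ s = lanes W (fun _ => 2 ^ W - 2 ^ s) n := by
    rw [lanes_mul]
    refine lanes_congr _ ?_
    intro i _
    rw [Nat.sub_mul, one_mul, ← pow_add, Nat.sub_add_cancel hs]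
  rw [land_lanes _ _ _ _ ha (fun i _ => h1), shift_land, hM,
    land_lanes _ _ _ _ ha (fun i _ => Nat.sub_lt (by positivity) (by positivity)),
    lanes_congr W (b := fun i => 2 ^ s * (a i / 2 ^ s)) (fun i hi => land_high _ _ _ hs (ha i hi)),
    lanes_shift _ _ _ _ (fun i _ => dvd_mul_right _ _), lanes_add]
  refine lanes_congr _ ?_
  intro i hi
  rw [land_low, Nat.mul_div_cancel_left _ (by positivity)]

/-- one folding step with two masks -/
def foldc (s ml mh y : ℕ) : ℕ := Nat.add (Nat.land y ml) (Nat.land (Nat.shiftRight y s) mh)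

/-- **Soundness of folding at a cut**; the new bound is `(2 ^ s - 1) + b / 2 ^ s`. -/
theorem Rep.foldc {W s n b y : ℕ} {v : ℕ → ZMod 7} (hy : Rep W n b y v) (hs : s ≤ W)
    (h7 : 2 ^ s % 7 = 1) (hb : b < 2 ^ W) :
    Rep W n (2 ^ s - 1 + b / 2 ^ s)
      (Pk.foldc s (lanes W (fun _ => 2 ^ s - 1) n) (lanes W (fun _ => 2 ^ (W - s) - 1) n) y) v := by
  obtain ⟨a, e, ha⟩ := hy
  refine ⟨fun i => a i % 2 ^ s + a i / 2 ^ s, ?_, ?_⟩
  · rw [← fold_spec' W s n hs a (fun i hi => lt_of_le_of_lt (ha i hi).1 hb), e]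
    change (_ &&& _) + ((_ >>> s) &&& _) = _
    rw [Nat.shiftRight_eq_div_pow]
  · intro t ht
    refine ⟨?_, ?_⟩
    · have h1 : a t % 2 ^ s < 2 ^ s := Nat.mod_lt _ (by positivity)
      have h2 : a t / 2 ^ s ≤ b / 2 ^ s := Nat.div_le_div_right (ha t ht).1
      change a t % 2 ^ s + a t / 2 ^ s ≤ _
      omega
    · rw [fold_cast s _ h7, (ha t ht).2]

end Pool.Agent.Work.MP_bde882_al.Pk
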