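import Pool.Agent.Work.MP_bde882_al_h40.InstA
import Pool.Agent.Work.MP_bde882_al_h64.Big
import Pool.Agent.Work.MP_bde882_al_h64.Scalars
import Pool.Agent.Work.MP_bde882_al_red.Homog

/-!
The packed programs of `Prog.lean` satisfy the hypotheses of the recursion over all orders, as soon
as the tables are correct (`TabOk`).
-/

set_option autoImplicit false

namespace Pool.Agent.Work.MP_bde882_al.Pk

open Finset
open Pool.Agent.Work.MP_bde882_al.H87
open Pool.Agent.Work.MP_bde882_al.H69
open Pool.Agent.Work.MP_bde882_al.Fin8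
open Pool.Agent.Work.MP_bde882_al.DP

/-! ### locality of the operators -/

section loc

variable (H : HM)

/-- `T` computes the block `τ` from the coordinates of the block `τ - δ` -/
def Loc (T : Module.End (ZMod 7) HV) (δ : ℕ) : Prop :=
  ∀ (a a' : HV) (τ : ℕ), (∀ t < DH H (τ - δ), a (τ - δ) t = a' (τ - δ) t) → ∀ k, T a τ k = T a' τ k

theorem Loc.mul {T S : Module.End (ZMod 7) HV} {δ ε : ℕ} (hT : Loc H T δ) (hS : Loc H S ε) :
    Loc H (T * S) (ε + δ) := by
  intro a a' τ h k
  rw [Module.End.mul_apply, Module.End.mul_apply]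
  refine hT _ _ τ (fun t _ => ?_) k
  refine hS a a' (τ - δ) ?_ t
  intro s hs
  have e : τ - δ - ε = τ - (ε + δ) := by omega
  rw [e] at hs ⊢
  exact h s hs

theorem Loc.sub {T S : Module.End (ZMod 7) HV} {δ : ℕ} (hT : Loc H T δ) (hS : Loc H S δ) :
    Loc H (T - S) δ := by
  intro a a' τ h k
  rw [LinearMap.sub_apply, LinearMap.sub_apply]
  change T a τ k - S a τ k = T a' τ k - S a' τ k
  rw [hT a a' τ h k, hS a a' τ h k]

theorem Loc.X (i : Fin 3) : Loc H (XO H i) (sh i) := by
  intro a a' τ h k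
  change XH H i a τ k = XH H i a' τ k
  rw [XH_apply, XH_apply]
  split_ifs
  · refine sum_congr rfl ?_
    intro m hm
    rw [h m (mem_range.1 hm)]
  · rfl

theorem Loc.rn (w : List (Fin 3)) : Loc H (rn (XO H) w) (tgtW w) := by
  induction w with
  | nil =>
    intro a a' τ _ k
    rfl
  | cons i w ih =>
    by_cases hw : w = []
    · subst hw
      have e : tgtW [i] = sh i := by
        rw [tgtW_cons, tgtW_nil, add_zero]
      rw [e]
      exact Loc.X H i
    · rw [rn_cons _ i w hw, tgtW_cons]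
      have h1 := Loc.mul H (Loc.X H i) ih
      have h2 := Loc.mul H ih (Loc.X H i)
      rw [add_comm] at h1
      exact Loc.sub H h1 h2

/-- expansion over the basis vectors of the source block -/
theorem Loc.expand {T : Module.End (ZMod 7) HV} {δ : ℕ} (hT : Loc H T δ) (a : HV) (τ k : ℕ) :
    T a τ k = ∑ t ∈ range (DH H (τ - δ)), T (bv (τ - δ) t) τ k * a (τ - δ) t := by
  have h1 : T a τ k = T (∑ t ∈ range (DH H (τ - δ)), a (τ - δ) t • bv (τ - δ) t) τ k := by
    refine hT _ _ τ ?_ k
    intro t ht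
    rw [Finset.sum_apply, Finset.sum_apply, Finset.sum_eq_single t]
    · change _ = a (τ - δ) t * (if τ - δ = τ - δ ∧ t = t then (1 : ZMod 7) else 0)
      simp
    · intro s _ hs
      change a (τ - δ) s * (if τ - δ = τ - δ ∧ t = s then (1 : ZMod 7) else 0) = 0
      rw [if_neg (fun hh => hs hh.2.symm), mul_zero]
    · intro h
      exact absurd (mem_range.2 ht) h
  rw [h1, map_sum, Finset.sum_apply, Finset.sum_apply]
  refine sum_congr rfl ?_
  intro t _
  rw [map_smul]
  change a (τ - δ) t * T (bv (τ - δ) t) τ k = _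
  ring

end loc

/-! ### the instance -/

section inst

variable (H : HM)

/-- the table of one block is correct -/
def BlkOk (wc : ℕ → List ℕ → ℕ → ℕ → ℕ) (w : List (Fin 3)) (β : ℕ) : Pg62.Blk → Prop
  | Pg62.Blk.no => ∀ t < DH H β, ∀ r < DH H (β + tgtW w), MO H w β r t = 0
  | Pg62.Blk.mk K N off ch => 1 ≤ K ∧ DH H β ≤ K ∧ DH H (β + tgtW w) ≤ N ∧ Nat.Coprime K N ∧
      ∃ d : ℕ → ℕ, wc 30 ch off (K * N) = lanes 30 d (K * N) ∧ (∀ l < K * N, d l ≤ 6) ∧
        ∀ i < N, ∀ t < DH H β, if slot K N i < DH H (β + tgtW w)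
          then ((d (K * i + (K - 1) - t) : ℕ) : ZMod 7) = MO H w β (slot K N i) t
          else d (K * i + (K - 1) - t) = 0

variable {J : Type}

/-- all tables of the operators are correct -/
def TabOk (wc : ℕ → List ℕ → ℕ → ℕ → ℕ) (o : J → Pg62.Op) (word : J → List (Fin 3)) : Prop :=
  ∀ (j : J) (κ : Fin 3 → ℕ), (∀ x, κ x + ct (word j) x ≤ 6) →
    BlkOk H wc (word j) (cod κ) (Pg62.find (cod κ) (Pg62.trO (o j)))

/-- the bound of one packed product -/
def BB : ℕ := 428 * (6 * 65534)

def RFh (κ : Fin 3 → ℕ) (y : ℕ) (a : HV) : Prop := Rep 30 (DH H (cod κ)) 65534 y (a (cod κ))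

def RUh (j : ℕ) (κ : Fin 3 → ℕ) (y : ℕ) (a : HV) : Prop :=
  Rep 30 (DH H (cod κ)) (j * BB) y (a (cod κ))

theorem RUh_zero (κ : Fin 3 → ℕ) : RUh H 0 κ 0 0 := by
  have := Rep.zero 30 (DH H (cod κ)) ((0 : HV) (cod κ)) (fun _ _ => rfl)
  exact this.mono (Nat.zero_le _)

/-- **The packed programs are sound.** -/
theorem inst_SoundC (wc : ℕ → List ℕ → ℕ → ℕ → ℕ) (o : J → Pg62.Op) (word : J → List (Fin 3))
    (hD : ∀ β, DH H β ≤ 428) (htab : TabOk H wc o word) :
    SoundC (fun j => ct (word j)) (fun j => rn (XO H) (word j)) (RFh H) (RUh H)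
      (fun j s y => Pg62.app wc 30 (o j) s y) Pg62.fd where
  mv := by
    intro p κ y a hκ hy
    have ht := htab p κ hκ
    have hcod : cod (κ + ct (word p)) = cod κ + tgtW (word p) := DP.cod_add _ _
    set β := cod κ with hβ
    unfold RUh
    rw [hcod]
    have hsub : β + tgtW (word p) - tgtW (word p) = β := by omega
    have hval : ∀ i, (rn (XO H) (word p) • a) (β + tgtW (word p)) i
        = ∑ t ∈ range (DH H β), MO H (word p) β i t * a β t := by
      intro i
      have h1 := (Loc.rn H (word p)).expand H a (β + tgtW (word p)) i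
      rw [hsub] at h1
      exact h1
    change Rep 30 _ _ (Pg62.apB wc 30 (Pg62.find β (Pg62.trO (o p))) y) _
    cases hf : Pg62.find β (Pg62.trO (o p)) with
    | no =>
      rw [hf] at ht
      change Rep 30 _ _ 0 _
      refine (Rep.zero 30 _ _ ?_).mono (Nat.zero_le _)
      intro i hi
      rw [hval i]
      refine sum_eq_zero ?_
      intro t ht'
      rw [ht t (mem_range.1 ht') i hi, zero_mul]
    | mk K N off ch =>
      rw [hf] at ht
      obtain ⟨hK, hk, hr, hc, d, hA, hd, hM⟩ := ht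
      have h0 : Pg62.apB wc 30 (Pg62.Blk.mk K N off ch) y
          = Pk.mv (Pg62.tmask 30 K N) (Pg62.mdl 30 N) (wc 30 ch off (K * N)) y := rfl
      rw [h0, tmask_eq 30 K N (by norm_num) hK, mdl_eq]
      have hb : DH H β * (6 * 65534) ≤ BB := Nat.mul_le_mul_right _ (hD β)
      have hb2 : BB + 1 < 2 ^ 30 := by
        unfold BB
        norm_num
      have h1 := Rep.mv3 (W := 30) (K := K) (N := N) (r := DH H (β + tgtW (word p)))
        (k := DH H β) (c := 6) (b := 65534) (A := wc 30 ch off (K * N)) (y := y)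
        (M := fun i t => MO H (word p) β i t) (v := a β)
        d hA hd hM hy hK hk hr hc (by omega)
      refine (h1.mono (by omega)).congr ?_
      intro i _
      exact (hval i).symm
  add := by
    intro j κ y y' a a' h1 h2
    have h3 := Rep.add h1 h2
    have e : (j + 1) * BB = j * BB + 1 * BB := by ring
    unfold RUh
    rw [e]
    exact h3
  fold := by
    intro j κ y a hj h
    refine Rep.fd h ((hD _).trans (by norm_num)) ?_
    have : j * BB ≤ 6 * BB := Nat.mul_le_mul_right _ hj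
    unfold BB at *
    omega
  smul := by
    intro c κ y a hc h
    have h1 := Rep.smul c h
    have h2 : c * 65534 ≤ 1 * BB := by
      have : c * 65534 ≤ 6 * 65534 := Nat.mul_le_mul_right _ hc
      unfold BB
      omega
    refine (h1.mono h2).congr ?_
    intro t _
    change (c : ZMod 7) * a (cod κ) t = c • a (cod κ) t
    rw [nsmul_eq_mul]
  seven := by
    intro a
    funext τ k
    change 7 • a τ k = 0
    generalize a τ k = x
    revert x
    decide

theorem cod_zero : cod (0 : Fin 3 → ℕ) = 0 := rfl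

theorem dB342 : dB 342 = 18 := by decide

theorem DH_zero : DH H 0 = H.d 0 := by
  unfold DH
  rw [if_pos (by decide)]

theorem DH_top : DH H 342 = H.d 0 := by
  unfold DH
  rw [if_neg (by decide)]

theorem rep_one {y b : ℕ} {v : ℕ → ZMod 7} (h : Rep 30 1 b y v) : ((y : ℕ) : ZMod 7) = v 0 := by
  obtain ⟨a, e, ha⟩ := h
  have h1 : lanes 30 a 1 = a 0 := by
    unfold lanes
    rw [sum_range_one, mul_zero, pow_zero, mul_one]
  rw [e, h1]
  exact (ha 0 (by norm_num)).2

theorem inst_Top (hd : H.d 0 = 1) : DP.Top (RFh H) (RUh H) where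
  zero := fun κ => (Rep.zero 30 (DH H (cod κ)) ((0 : HV) (cod κ)) (fun _ _ => rfl)).mono
    (Nat.zero_le _)
  start := by
    unfold RFh
    rw [cod_zero, DH_zero, hd]
    refine ⟨fun _ => 1, ?_, ?_⟩
    · unfold lanes
      rw [sum_range_one, mul_zero, pow_zero, mul_one]
    · intro t ht
      have h0 : t = 0 := by omega
      subst h0
      refine ⟨by norm_num, ?_⟩
      change _ = if (0 : ℕ) = 0 ∧ (0 : ℕ) = 0 then (1 : ZMod 7) else 0
      simp
  top0 := by
    intro y a h
    have e : cod ![6, 6, 6] = 342 := rfl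
    unfold RFh at h
    rw [e, DH_top, hd] at h
    exact rep_one h
  top1 := by
    intro y a h
    have e : cod ![6, 6, 6] = 342 := rfl
    unfold RUh at h
    rw [e, DH_top, hd] at h
    exact rep_one h

theorem inst_hzt (hD : ∀ β, DH H β ≤ 428) (κ : Fin 3 → ℕ) (y : ℕ) (a : HV) (h : RFh H κ y a)
    (hz : Pg62.zt y = true) : ∀ k < DH H (cod κ), a (cod κ) k = 0 :=
  Rep.zt h ((hD _).trans (by norm_num)) (by norm_num) hz

theorem start_rep (κ0 : Fin 3 → ℕ) (t0 : ℕ) (ht : t0 < DH H (cod κ0)) :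
    RFh H κ0 (2 ^ (30 * t0)) (bv (cod κ0) t0) := by
  refine ⟨fun t => if t = t0 then 1 else 0, ?_, ?_⟩
  · unfold lanes
    rw [Finset.sum_eq_single t0]
    · change _ = (if t0 = t0 then 1 else 0) * 2 ^ (30 * t0)
      rw [if_pos rfl, one_mul]
    · intro t _ h
      change (if t = t0 then 1 else 0) * 2 ^ (30 * t) = 0
      rw [if_neg h, zero_mul]
    · intro h
      exact absurd (mem_range.2 ht) h
  · intro t _
    change (if t = t0 then 1 else 0) ≤ 65534 ∧ (((if t = t0 then 1 else 0 : ℕ)) : ZMod 7)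
      = if cod κ0 = cod κ0 ∧ t = t0 then (1 : ZMod 7) else 0
    by_cases h : t = t0
    · rw [if_pos h, if_pos ⟨rfl, h⟩]
      exact ⟨by norm_num, by simp⟩
    · rw [if_neg h, if_neg (fun hh => h hh.2)]
      exact ⟨by norm_num, by simp⟩

theorem inst_hst (β : ℕ) (hβ : β < 343) (m : ℕ) (hm : m < DH H β) :
    RFh H (fun l => dg l β) (2 ^ (30 * m)) (bv β m) := by
  have e : cod (fun l => dg l β) = β := tgt_dg β hβ
  have h := start_rep H (fun l => dg l β) m (by rw [e]; exact hm)
  rw [e] at h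
  exact h

/-- **The big check from the leaf tests and the tables.** -/
theorem bigCheckC_of_tab (wc : ℕ → List ℕ → ℕ → ℕ → ℕ) (ob : Fin 504 → Pg62.Op)
    (hD : ∀ β, DH H β ≤ 428) (htab : TabOk H wc ob lbWord)
    (hsh : ∀ i, Pg62.shO (ob i) = tgtW (lbWord i)) (hleaf : Leaves H wc ob) : BigCheckC H :=
  bigCheckC_of_leaves H (wt := fun j => ct (lbWord j)) (sem := fun j => rn (XO H) (lbWord j))
    (RF := RFh H) (RU := RUh H) (tb := ob) (wc := wc)
    (inst_SoundC H wc ob lbWord hD htab).toSound (fun κ => RUh_zero H κ) hsh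
    (fun κ y a h hz => inst_hzt H hD κ y a h hz)
    (fun β hβ m hm => inst_hst H β hβ m hm) id (fun _ => rfl) (fun _ => rfl) hleaf

theorem nmC_eq : ∀ n ≤ 8, ct (nmW n) = nmC n := by
  intro n hn
  have h : ∀ n : Fin 9, ∀ x, ct (nmW n.val) x = nmC n.val x := by decide
  funext x
  exact h ⟨n, by omega⟩ x

/-- **The long lists from the checks and the tables.** -/
theorem long_of_tab (wc : ℕ → List ℕ → ℕ → ℕ → ℕ) (tb : ℕ → Pg62.Op) (word : ℕ → List (Fin 3))
    (hword : ∀ n ≤ 8, word n = nmW n)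
    (hd : H.d 0 = 1) (hD : ∀ β, DH H β ≤ 428) (htab : TabOk H wc tb word)
    (hsh : ∀ n, Pg62.shO (tb n) = tgtW (word n))
    (h1 : ∀ e ∈ tblE, chkE (fun n => Pg62.shO (tb n)) Pg62.fd
      (fun n s y => Pg62.frc (fun b => Pg62.app wc 30 (tb n) b y) s) id e = true)
    (h2 : ∀ e ∈ tblF, chkE (fun n => Pg62.shO (tb n)) Pg62.fd
      (fun n s y => Pg62.frc (fun b => Pg62.app wc 30 (tb n) b y) s) id e = true)
    (h3 : chkE (fun n => Pg62.shO (tb n)) Pg62.fd
      (fun n s y => Pg62.frc (fun b => Pg62.app wc 30 (tb n) b y) s) id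
        ⟨[], 0, 0, [0, 1, 2], [6, 6, 6]⟩ = false) :
    LongOne H ∧ LongTwo H ∧ TopValue H :=
  long_all H (by omega) (inst_SoundC H wc tb word hD htab) (inst_Top H hd) id
    (fun n hn => by
      change rn (XO H) (word n) = _
      rw [hword n hn])
    (fun n hn => by
      change ct (word n) = _
      rw [hword n hn]
      exact nmC_eq n hn)
    (fun n => Pg62.shO (tb n)) (fun n => hsh n)
    (fun n s y => Pg62.frc (fun b => Pg62.app wc 30 (tb n) b y) s)
    (fun n s y => Pg62.frc_eq _ _) h1 h2 h3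

end inst

end Pool.Agent.Work.MP_bde882_al.Pk
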