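import Pool.Agent.Work.MP_bde882_al_h40.Mv2
import Pool.Agent.Work.MP_bde882_al_h62.Prog

/-!
The packed arithmetic of `Prog.lean` in terms of `Rep`.
-/

set_option autoImplicit false

namespace Pool.Agent.Work.MP_bde882_al.Pk

open Finset

/-! ### the constants of the programs -/

theorem lanes_one_eq (t c n : ℕ) (ht : 0 < t) :
    c * ((2 ^ (t * n) - 1) / (2 ^ t - 1)) = lanes t (fun _ => c) n := by
  have h1 : lanes t (fun _ => 1) n * (2 ^ t - 1) = 1 * (2 ^ (t * n) - 1) := lanes_const_eq t 1 n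
  have h2 : 0 < 2 ^ t - 1 := by
    have : 2 ^ 1 ≤ 2 ^ t := Nat.pow_le_pow_right (by norm_num) ht
    omega
  have h3 : (2 ^ (t * n) - 1) / (2 ^ t - 1) = lanes t (fun _ => 1) n := by
    rw [← one_mul (2 ^ (t * n) - 1), ← h1]
    exact Nat.mul_div_cancel _ h2
  rw [h3, lanes_const_mul]
  simp

theorem tmask_eq (W K N : ℕ) (hW : 0 < W) (hK : 0 < K) : Pg62.tmask W K N = topMask W K N := by
  have h1 : Pg62.tmask W K N
      = (((2 ^ W - 1) * ((2 ^ (W * (K * N)) - 1) / (2 ^ (W * K) - 1))) <<< (W * (K - 1))) := rfl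
  rw [h1, Nat.shiftLeft_eq, ← mul_assoc W K N, lanes_one_eq _ _ _ (Nat.mul_pos hW hK), lanes_mul]
  unfold topMask
  refine lanes_congr _ ?_
  intro i _
  have h2 : W * K = W + W * (K - 1) := by
    obtain ⟨q, rfl⟩ : ∃ q, K = q + 1 := ⟨K - 1, by omega⟩
    rw [Nat.add_sub_cancel]
    ring
  rw [h2, pow_add, Nat.sub_mul, one_mul]

theorem mdl_eq (W N : ℕ) : Pg62.mdl W N = 2 ^ (W * N) - 1 := rfl

theorem const_gen (c t n e : ℕ) (ht : 0 < t) (he : e = t * n) :
    Nat.mul c (Nat.div (Nat.sub (Nat.pow 2 e) 1) (Nat.sub (Nat.pow 2 t) 1))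
      = lanes t (fun _ => c) n := by
  subst he
  exact lanes_one_eq t c n ht

theorem const_gen2 (x c t n e : ℕ) (ht : 0 < t) (he : e = t * n)
    (hx : x = Nat.mul c (Nat.div (Nat.sub (Nat.pow 2 e) 1) (Nat.sub (Nat.pow 2 t) 1))) :
    x = lanes t (fun _ => c) n := by
  rw [hx]
  exact const_gen c t n e ht he

set_option exponentiation.threshold 13000 in
theorem M15_eq : Pg62.M15 = lanes 30 (fun _ => 2 ^ 15 - 1) 430 := by
  have h3 : (2 ^ 15 - 1 : ℕ) = 32767 := by norm_num
  rw [h3]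
  exact const_gen2 _ 32767 30 430 12900 (by norm_num) (by norm_num) rfl

set_option exponentiation.threshold 13000 in
theorem HM_eq : Pg62.HM = lanes 30 (fun _ => 2 ^ 30 - 2 ^ (30 - 3)) 430 :=
  const_gen2 _ (2 ^ 30 - 2 ^ (30 - 3)) 30 430 12900 (by norm_num) (by norm_num) rfl

/-! ### more lanes than needed -/

theorem lanes_pad (W : ℕ) (a : ℕ → ℕ) (n m : ℕ) (h : n ≤ m) :
    lanes W (fun i => if i < n then a i else 0) m = lanes W a n := by
  obtain ⟨q, rfl⟩ := Nat.exists_eq_add_of_le h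
  rw [lanes_split, lanes_eq_zero_of W _ q (fun i _ => if_neg (by omega)), mul_zero, add_zero]
  exact lanes_congr _ (fun i hi => if_pos hi)

/-- a longer vector with zero lanes beyond `r` -/
theorem lanes_cut (W : ℕ) (a : ℕ → ℕ) (r n : ℕ) (h : r ≤ n) (h0 : ∀ i < n, r ≤ i → a i = 0) :
    lanes W a n = lanes W a r := by
  rw [← lanes_pad W a r n h]
  refine lanes_congr _ ?_
  intro i hi
  by_cases h1 : i < r
  · rw [if_pos h1]
  · rw [if_neg h1, h0 i hi (by omega)]

/-- **Packed product, more slots than rows**: the unused slots hold zero rows. -/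
theorem Rep.mv3 {W K N r k c b A y : ℕ} {M : ℕ → ℕ → ZMod 7} {v : ℕ → ZMod 7} (d : ℕ → ℕ)
    (hA : A = lanes W d (K * N)) (hd : ∀ l < K * N, d l ≤ c)
    (hM : ∀ i < N, ∀ t < k, if slot K N i < r
      then ((d (K * i + (K - 1) - t) : ℕ) : ZMod 7) = M (slot K N i) t
      else d (K * i + (K - 1) - t) = 0)
    (hy : Rep W k b y v) (hK : 1 ≤ K) (hk : k ≤ K) (hr : r ≤ N) (hc : Nat.Coprime K N)
    (hb : k * (c * b) + 1 < 2 ^ W) :
    Rep W r (k * (c * b)) (Pk.mv (topMask W K N) (2 ^ (W * N) - 1) A y)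
      (fun i => ∑ t ∈ range k, M i t * v t) := by
  obtain ⟨u, eu, hu⟩ := hy
  have hinv : ∀ j, ∃ i, j < N → (i < N ∧ slot K N i = j) := by
    intro j
    by_cases hj : j < N
    · have : j ∈ (range N).image (slot K N) := by
        rw [slot_image hc]
        exact mem_range.2 hj
      obtain ⟨i, hi, e⟩ := mem_image.1 this
      exact ⟨i, fun _ => ⟨mem_range.1 hi, e⟩⟩
    · exact ⟨0, fun h => absurd h hj⟩
  choose g hg using hinv
  have hgs : ∀ i < N, g (slot K N i) = i := by
    intro i hi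
    have h1 := hg (slot K N i) (slot_lt (by omega))
    exact slot_inj hc (by simpa using h1.1) (by simpa using hi) h1.2
  have hin : ∀ i < N, ∀ t < k, K * i + (K - 1) - t < K * N := by
    intro i hi t ht
    have h1 : K * (i + 1) ≤ K * N := Nat.mul_le_mul_left _ hi
    rw [Nat.mul_succ] at h1
    omega
  have hres : Pk.mv (topMask W K N) (2 ^ (W * N) - 1) A y
      = lanes W (fun j => ∑ t ∈ range k, d (K * g j + (K - 1) - t) * u t) N := by
    have := mv_spec2 W K N k c b d u (fun j t => d (K * g j + (K - 1) - t)) hK hk hc hd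
      (fun t ht => (hu t ht).1) hb (fun i hi t _ => by rw [hgs i hi])
    rw [← hA, ← eu] at this
    exact this
  refine ⟨fun j => ∑ t ∈ range k, d (K * g j + (K - 1) - t) * u t, ?_, ?_⟩
  · rw [hres]
    refine lanes_cut _ _ _ _ hr ?_
    intro j hj hrj
    obtain ⟨h1, h2⟩ := hg j hj
    refine sum_eq_zero ?_
    intro t ht
    have h3 := hM (g j) h1 t (mem_range.1 ht)
    rw [h2, if_neg (by omega)] at h3
    rw [h3, zero_mul]
  · intro j hj
    have hjN : j < N := by omega
    obtain ⟨h1, h2⟩ := hg j hjN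
    constructor
    · calc ∑ t ∈ range k, d (K * g j + (K - 1) - t) * u t ≤ ∑ _t ∈ range k, c * b := by
            refine sum_le_sum ?_
            intro t ht
            have ht := mem_range.1 ht
            exact Nat.mul_le_mul (hd _ (hin _ h1 t ht)) (hu t ht).1
        _ = k * (c * b) := by simp
    · push_cast
      refine sum_congr rfl ?_
      intro t ht
      have ht := mem_range.1 ht
      have h3 := hM (g j) h1 t ht
      rw [h2, if_pos hj] at h3
      rw [h3, (hu t ht).2]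

/-- **Folding with the fixed mask.** -/
theorem Rep.fd {n b y : ℕ} {v : ℕ → ZMod 7} (hy : Rep 30 n b y v) (hn : n ≤ 430)
    (hb : b < 2 ^ 30) : Rep 30 n 65534 (Pg62.fd y) v := by
  obtain ⟨a, e, ha⟩ := hy
  set a' : ℕ → ℕ := fun i => if i < n then a i else 0 with ha'
  have hlt : ∀ i < 430, a' i < 2 ^ (2 * 15) := by
    intro i _
    rw [ha']
    dsimp only
    split_ifs with h
    · exact lt_of_le_of_lt (ha i h).1 hb
    · norm_num
  have e' : y = lanes (2 * 15) a' 430 := by
    rw [e, ha']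
    exact (lanes_pad 30 a n 430 hn).symm
  refine ⟨fun i => a' i % 2 ^ 15 + a' i / 2 ^ 15, ?_, ?_⟩
  · have h1 := fold_spec 15 430 a' hlt
    rw [← e'] at h1
    have h2 : Pg62.fd y = (y &&& lanes (2 * 15) (fun _ => 2 ^ 15 - 1) 430)
        + ((y / 2 ^ 15) &&& lanes (2 * 15) (fun _ => 2 ^ 15 - 1) 430) := by
      have h3 : Pg62.fd y = (y &&& Pg62.M15) + ((y >>> 15) &&& Pg62.M15) := rfl
      rw [h3, M15_eq, Nat.shiftRight_eq_div_pow]
    rw [h2, h1]
    refine lanes_cut _ _ _ _ hn ?_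
    intro i _ hi
    have h4 : a' i = 0 := if_neg (by omega)
    change a' i % 2 ^ 15 + a' i / 2 ^ 15 = 0
    rw [h4]
    simp
  · intro t ht
    refine ⟨?_, ?_⟩
    · have := fold_bound 15 (a' t) (hlt t (by omega))
      norm_num at this ⊢
      exact this
    · have h4 : a' t = a t := if_pos ht
      change ((a' t % 2 ^ 15 + a' t / 2 ^ 15 : ℕ) : ZMod 7) = v t
      rw [fold_cast 15 _ (by norm_num), h4, (ha t ht).2]

/-- **Zero test with the fixed mask.** -/
theorem Rep.zt {n b y : ℕ} {v : ℕ → ZMod 7} (hy : Rep 30 n b y v) (hn : n ≤ 430)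
    (hb : b < 2 ^ 30) (h : Pg62.zt y = true) : ∀ t < n, v t = 0 := by
  obtain ⟨a, e, ha⟩ := hy
  have hlt : ∀ i < 430, (fun i => if i < n then a i else 0) i < 2 ^ 30 := by
    intro i _
    dsimp only
    split_ifs with h
    · exact lt_of_le_of_lt (ha i h).1 hb
    · norm_num
  have e' : y = lanes 30 (fun i => if i < n then a i else 0) 430 := by
    rw [e]
    exact (lanes_pad 30 a n 430 hn).symm
  have h1 : y % 7 = 0 ∧ (y / 7) &&& Pg62.HM = 0 := by
    have h2 : Pg62.zt y = Bool.rec (motive := fun _ => Bool) false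
      (Nat.beq ((y / 7) &&& Pg62.HM) 0) (Nat.beq (y % 7) 0) := rfl
    rw [h2] at h
    cases h3 : Nat.beq (y % 7) 0 with
    | false =>
      rw [h3] at h
      exact absurd h Bool.false_ne_true
    | true =>
      rw [h3] at h
      exact ⟨Nat.eq_of_beq_eq_true h3, Nat.eq_of_beq_eq_true h⟩
  rw [HM_eq, e'] at h1
  have h7 := ztest_spec 30 430 _ (by norm_num) hlt h1.1 h1.2
  intro t ht
  have h8 : (if t < n then a t else 0) % 7 = 0 := h7 t (by omega)
  rw [if_pos ht] at h8
  rw [← (ha t ht).2]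
  have := (ZMod.natCast_eq_natCast_iff (a t) 0 7).2 h8
  simpa using this

end Pool.Agent.Work.MP_bde882_al.Pk
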