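import Pool.Agent.Work.MP_bde882_al_h40.Packed

/-!
Matrix times vector by one multiplication, one mask and one residue.
-/

set_option autoImplicit false

namespace Pool.Agent.Work.MP_bde882_al.Pk

open Finset

theorem lanes_eq_zero_of (W : ℕ) (a : ℕ → ℕ) (n : ℕ) (h : ∀ i < n, a i = 0) : lanes W a n = 0 := by
  unfold lanes
  refine sum_eq_zero ?_
  intro i hi
  rw [h i (mem_range.1 hi), zero_mul]

theorem lanes_shift_up (W k : ℕ) (b : ℕ → ℕ) (n : ℕ) :
    lanes W b n * 2 ^ (W * k) = lanes W (fun l => if k ≤ l then b (l - k) else 0) (n + k) := by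
  rw [add_comm n k, lanes_split]
  rw [lanes_eq_zero_of W _ k (fun i hi => if_neg (by omega)), zero_add, mul_comm]
  congr 1
  refine lanes_congr _ ?_
  intro i _
  simp

/-- product of two packed numbers of different lengths -/
theorem lanes_mul_lanes' (W : ℕ) (a v : ℕ → ℕ) (n k : ℕ) :
    lanes W a n * lanes W v k
      = lanes W (fun l => ∑ t ∈ range k, if t ≤ l ∧ l - t < n then a (l - t) * v t else 0) (n + k) := by
  induction k with
  | zero => simp [lanes]
  | succ k ih =>
    rw [lanes_succ, Nat.mul_add, ih, ← mul_assoc, lanes_mul, lanes_shift_up, ← Nat.add_assoc,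
      lanes_succ W _ (n + k)]
    have h0 : (∑ t ∈ range (k + 1), if t ≤ n + k ∧ n + k - t < n then a (n + k - t) * v t else 0) = 0 := by
      refine sum_eq_zero ?_
      intro t ht
      have := mem_range.1 ht
      rw [if_neg (by omega)]
    rw [h0, zero_mul, add_zero, lanes_add]
    refine lanes_congr _ ?_
    intro l hl
    rw [sum_range_succ]
    congr 1
    by_cases h : k ≤ l
    · rw [if_pos h, if_pos ⟨h, by omega⟩]
    · rw [if_neg h, if_neg (by omega)]

theorem lanes_blocks (W K : ℕ) (a : ℕ → ℕ) (r : ℕ) :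
    lanes W a (K * r) = lanes (W * K) (fun i => lanes W (fun s => a (K * i + s)) K) r := by
  induction r with
  | zero => simp [lanes]
  | succ r ih =>
    rw [Nat.mul_succ, lanes_split, ih, lanes_succ]
    congr 1
    rw [mul_comm, mul_assoc]

/-- the mask that keeps the top lane of each group of `K` lanes -/
def topMask (W K r : ℕ) : ℕ := lanes (W * K) (fun _ => 2 ^ (W * K) - 2 ^ (W * (K - 1))) r

theorem lanes_const_eq (t c n : ℕ) : lanes t (fun _ => c) n * (2 ^ t - 1) = c * (2 ^ (t * n) - 1) := by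
  induction n with
  | zero => simp [lanes]
  | succ n ih =>
    rw [lanes_succ, Nat.add_mul, ih, Nat.mul_succ, pow_add]
    have h1 : 1 ≤ 2 ^ (t * n) := Nat.one_le_two_pow
    have h2 : 1 ≤ 2 ^ t := Nat.one_le_two_pow
    obtain ⟨x, hx⟩ := Nat.exists_eq_add_of_le h1
    obtain ⟨y, hy⟩ := Nat.exists_eq_add_of_le h2
    rw [hx, hy]
    have e1 : (1 + x) * (1 + y) - 1 = x + y + x * y := by
      rw [Nat.sub_eq_of_eq_add]; ring
    rw [e1, Nat.add_sub_cancel_left, Nat.add_sub_cancel_left]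
    ring

theorem topMask_spec (W K r : ℕ) : topMask W K r * (2 ^ (W * K) - 1)
    = (2 ^ (W * K) - 2 ^ (W * (K - 1))) * (2 ^ (W * K * r) - 1) := lanes_const_eq _ _ _

theorem land_topMask (W K r m : ℕ) (g : ℕ → ℕ) (hK : 1 ≤ K) (hg : ∀ l < K * r + m, g l < 2 ^ W) :
    lanes W g (K * r + m) &&& topMask W K r
      = lanes (W * K) (fun i => 2 ^ (W * (K - 1)) * g (K * i + (K - 1))) r := by
  have hKK : K - 1 + 1 = K := by omega
  have hin : ∀ i < r, ∀ s < K, K * i + s < K * r := by
    intro i hi s hs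
    calc K * i + s < K * i + K := by omega
      _ = K * (i + 1) := by ring
      _ ≤ K * r := Nat.mul_le_mul_left _ hi
  have hlt : ∀ i < r, lanes W (fun s => g (K * i + s)) K < 2 ^ (W * K) := by
    intro i hi
    refine lanes_lt _ _ _ ?_
    intro s hs
    have := hin i hi s hs
    exact hg _ (by omega)
  have hml : ∀ i < r, 2 ^ (W * K) - 2 ^ (W * (K - 1)) < 2 ^ (W * K) := by
    intro i _
    exact Nat.sub_lt (by positivity) (by positivity)
  rw [lanes_split]
  have h1 : topMask W K r = topMask W K r + 2 ^ (W * (K * r)) * 0 := by simp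
  have h2 : topMask W K r < 2 ^ (W * (K * r)) := by
    rw [← mul_assoc]
    exact lanes_lt _ _ _ hml
  rw [h1, land_split _ _ _ _ _ (lanes_lt W g _ (fun i hi => hg i (by omega))) h2, Nat.and_zero,
    mul_zero, add_zero, lanes_blocks, topMask, land_lanes _ _ _ _ hlt hml]
  refine lanes_congr _ ?_
  intro i hi
  rw [land_high _ _ _ (Nat.mul_le_mul_left _ (by omega)) (hlt i hi)]
  congr 1
  have h3 : lanes W (fun s => g (K * i + s)) K
      = lanes W (fun s => g (K * i + s)) (K - 1) + g (K * i + (K - 1)) * 2 ^ (W * (K - 1)) := by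
    have h5 := lanes_succ W (fun s => g (K * i + s)) (K - 1)
    rwa [hKK] at h5
  have h4 : lanes W (fun s => g (K * i + s)) (K - 1) < 2 ^ (W * (K - 1)) := by
    refine lanes_lt _ _ _ ?_
    intro s hs
    have := hin i hi s (by omega)
    exact hg _ (by omega)
  rw [h3, Nat.add_mul_div_right _ _ (by positivity), Nat.div_eq_of_lt h4, zero_add]

/-- gathering the lanes at stride `K` by a residue -/
theorem gather_spec (W K r : ℕ) (d : ℕ → ℕ) (hr : r + 1 ≤ K) (hd : ∀ i < r, d i + 1 < 2 ^ W) :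
    lanes (W * K) (fun i => 2 ^ (W * (K - 1)) * d i) r % (2 ^ (W * (K - 1)) - 1) = lanes W d r := by
  have hKK : K - 1 + 1 = K := by omega
  have hmod : lanes (W * K) (fun i => 2 ^ (W * (K - 1)) * d i) r ≡ lanes W d r
      [MOD (2 ^ (W * (K - 1)) - 1)] := by
    have h1 : 2 ^ (W * (K - 1)) ≡ 1 [MOD (2 ^ (W * (K - 1)) - 1)] := by
      have h2 : 1 ≤ 2 ^ (W * (K - 1)) := Nat.one_le_two_pow
      exact ((Nat.modEq_iff_dvd' h2).2 dvd_rfl).symm
    have h0 : ∀ s : ℕ, (∑ i ∈ range s, 2 ^ (W * (K - 1)) * d i * 2 ^ (W * K * i))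
        ≡ ∑ i ∈ range s, d i * 2 ^ (W * i) [MOD (2 ^ (W * (K - 1)) - 1)] := by
      intro s
      induction s with
      | zero => exact Nat.ModEq.refl _
      | succ s ih =>
        rw [sum_range_succ, sum_range_succ]
        refine Nat.ModEq.add ih ?_
        have e1 : 2 ^ (W * (K - 1)) * d s * 2 ^ (W * K * s)
            = (2 ^ (W * (K - 1))) ^ (s + 1) * (d s * 2 ^ (W * s)) := by
          rw [← pow_mul]
          have e2 : W * K * s = W * (K - 1) * s + W * s := by
            conv_lhs => rw [← hKK]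
            ring
          rw [e2, pow_add, Nat.mul_succ (W * (K - 1)), pow_add]
          ring
        rw [e1]
        have h3 := (h1.pow (s + 1)).mul_right (d s * 2 ^ (W * s))
        rwa [one_pow, one_mul] at h3
    exact h0 r
  have hlt : lanes W d r < 2 ^ (W * (K - 1)) - 1 ∨ (lanes W d r = 0 ∧ 2 ^ (W * (K - 1)) - 1 = 0) := by
    rcases Nat.eq_zero_or_pos r with rfl | hr0
    · by_cases h : 2 ^ (W * (K - 1)) - 1 = 0
      · right; exact ⟨by simp [lanes], h⟩
      · left
        have : lanes W d 0 = 0 := by simp [lanes]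
        omega
    · left
      have h1 : lanes W (fun i => d i + 1) r < 2 ^ (W * r) := lanes_lt _ _ _ hd
      have h2 : lanes W d r + 1 ≤ lanes W (fun i => d i + 1) r := by
        have e : lanes W (fun i => d i + 1) r = lanes W d r + lanes W (fun _ => 1) r := by
          rw [lanes_add]
        rw [e]
        obtain ⟨q, rfl⟩ : ∃ q, r = q + 1 := ⟨r - 1, by omega⟩
        rw [lanes_succ' W (fun _ => 1)]
        omega
      have h3 : 2 ^ (W * r) ≤ 2 ^ (W * (K - 1)) :=
        Nat.pow_le_pow_right (by norm_num) (Nat.mul_le_mul_left _ (by omega))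
      omega
  rcases hlt with hlt | ⟨h1, h2⟩
  · rw [hmod, Nat.mod_eq_of_lt hlt]
  · rw [h1]
    rw [h1] at hmod
    rw [hmod]
    simp

/-- **Matrix times vector**: rows reversed at stride `K`, one product, one mask, one residue. -/
theorem mv_spec (W K r k a0 y0 : ℕ) (a v : ℕ → ℕ) (hk : k ≤ K) (hr : r + 1 ≤ K)
    (ha : ∀ l < K * r, a l ≤ a0) (hv : ∀ t < k, v t ≤ y0) (hb : k * (a0 * y0) + 1 < 2 ^ W) :
    ((lanes W a (K * r) * lanes W v k) &&& topMask W K r) % (2 ^ (W * (K - 1)) - 1)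
      = lanes W (fun i => ∑ t ∈ range k, a (K * i + (K - 1) - t) * v t) r := by
  have hbd : ∀ l, (∑ t ∈ range k, if t ≤ l ∧ l - t < K * r then a (l - t) * v t else 0) ≤ k * (a0 * y0) := by
    intro l
    have h1 : (∑ t ∈ range k, if t ≤ l ∧ l - t < K * r then a (l - t) * v t else 0)
        ≤ ∑ _t ∈ range k, a0 * y0 := by
      refine sum_le_sum ?_
      intro t ht
      split_ifs with h
      · exact Nat.mul_le_mul (ha _ h.2) (hv t (mem_range.1 ht))
      · exact Nat.zero_le _
    simpa using h1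
  rw [lanes_mul_lanes', land_topMask _ _ _ _ _ (by omega) (fun l _ => by
    have := hbd l
    omega), gather_spec _ _ _ _ hr (fun i _ => by
    have := hbd (K * i + (K - 1))
    omega)]
  refine lanes_congr _ ?_
  intro i hi
  refine sum_congr rfl ?_
  intro t ht
  have ht := mem_range.1 ht
  have h1 : K * (i + 1) ≤ K * r := Nat.mul_le_mul_left _ hi
  rw [Nat.mul_succ] at h1
  rw [if_pos ⟨by omega, by omega⟩]

/-- one lane of a packed number -/
def lane (W A i : ℕ) : ℕ := A / 2 ^ (W * i) % 2 ^ W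

theorem lane_lt (W A i : ℕ) : lane W A i < 2 ^ W := Nat.mod_lt _ (by positivity)

theorem lanes_lane_mod (W A n : ℕ) : lanes W (lane W A) n = A % 2 ^ (W * n) := by
  induction n with
  | zero => simp [lanes, Nat.mod_one]
  | succ n ih =>
    rw [lanes_succ, ih, Nat.mul_succ, pow_add, lane, Nat.mod_mul]
    ring

theorem lanes_lane (W A n : ℕ) (h : A < 2 ^ (W * n)) : lanes W (lane W A) n = A := by
  rw [lanes_lane_mod, Nat.mod_eq_of_lt h]

theorem lane_lanes (W : ℕ) (a : ℕ → ℕ) (n i : ℕ) (hi : i < n) (h : ∀ j < n, a j < 2 ^ W) :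
    lane W (lanes W a n) i = a i := digit_spec W a n i hi (fun j hj => h j (by omega))

/-- `mv_spec` in terms of the lanes of two given numbers -/
theorem mv_lane (W K r k a0 y0 A y : ℕ) (hk : k ≤ K) (hr : r + 1 ≤ K)
    (hA : A < 2 ^ (W * (K * r))) (hy : y < 2 ^ (W * k))
    (ha : ∀ l < K * r, lane W A l ≤ a0) (hv : ∀ t < k, lane W y t ≤ y0)
    (hb : k * (a0 * y0) + 1 < 2 ^ W) :
    ((A * y) &&& topMask W K r) % (2 ^ (W * (K - 1)) - 1)
      = lanes W (fun i => ∑ t ∈ range k, lane W A (K * i + (K - 1) - t) * lane W y t) r := by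
  have := mv_spec W K r k a0 y0 (lane W A) (lane W y) hk hr ha hv hb
  rwa [lanes_lane W A _ hA, lanes_lane W y _ hy] at this

/-- the test for small lanes: all lanes of `A` are below `2 ^ s` -/
theorem small_spec (W s n A : ℕ) (hs : s ≤ W) (hA : A < 2 ^ (W * n))
    (h : A &&& lanes W (fun _ => 2 ^ W - 2 ^ s) n = 0) : ∀ i < n, lane W A i < 2 ^ s := by
  rw [← lanes_lane W A n hA, land_lanes _ _ _ _ (fun i _ => lane_lt W A i)
    (fun i _ => Nat.sub_lt (by positivity) (by positivity))] at h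
  intro i hi
  have h1 : lane W A i &&& (2 ^ W - 2 ^ s) = 0 := by
    unfold lanes at h
    rw [sum_eq_zero_iff] at h
    have := h i (mem_range.2 hi)
    rcases Nat.mul_eq_zero.1 this with h | h
    · exact h
    · exact absurd h (by positivity)
  rw [land_high W s _ hs (lane_lt W A i)] at h1
  rcases Nat.mul_eq_zero.1 h1 with h | h
  · exact absurd h (by positivity)
  · exact (Nat.div_eq_zero_iff_lt (by positivity)).1 h

theorem shift_land (x s M : ℕ) : (x / 2 ^ s) &&& M = (x &&& (M * 2 ^ s)) / 2 ^ s := by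
  apply Nat.eq_of_testBit_eq
  intro j
  rw [Nat.testBit_and, Nat.testBit_div_two_pow, Nat.testBit_div_two_pow, Nat.testBit_and,
    Nat.testBit_mul_two_pow]
  simp

/-- **Folding**: one lane of `2 s` bits becomes the sum of its two halves. -/
theorem fold_spec (s n : ℕ) (a : ℕ → ℕ) (ha : ∀ i < n, a i < 2 ^ (2 * s)) :
    (lanes (2 * s) a n &&& lanes (2 * s) (fun _ => 2 ^ s - 1) n)
      + ((lanes (2 * s) a n / 2 ^ s) &&& lanes (2 * s) (fun _ => 2 ^ s - 1) n)
      = lanes (2 * s) (fun i => a i % 2 ^ s + a i / 2 ^ s) n := by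
  have hp : 2 ^ (2 * s) = 2 ^ s * 2 ^ s := by rw [two_mul, pow_add]
  have h1 : 2 ^ s - 1 < 2 ^ (2 * s) := by
    have h3 : 1 ≤ 2 ^ s := Nat.one_le_two_pow
    have h4 : 2 ^ s ≤ 2 ^ (2 * s) := Nat.pow_le_pow_right (by norm_num) (by omega)
    omega
  have hM : lanes (2 * s) (fun _ => 2 ^ s - 1) n * 2 ^ s
      = lanes (2 * s) (fun _ => 2 ^ (2 * s) - 2 ^ s) n := by
    rw [lanes_mul]
    refine lanes_congr _ ?_
    intro i _
    rw [hp, Nat.sub_mul, one_mul]
  rw [land_lanes _ _ _ _ ha (fun i _ => h1), shift_land, hM,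
    land_lanes _ _ _ _ ha (fun i _ => Nat.sub_lt (by positivity) (by positivity)),
    lanes_congr (2 * s) (b := fun i => 2 ^ s * (a i / 2 ^ s))
      (fun i hi => land_high _ _ _ (by omega) (ha i hi)),
    lanes_shift _ _ _ _ (fun i _ => dvd_mul_right _ _), lanes_add]
  refine lanes_congr _ ?_
  intro i hi
  rw [land_low, Nat.mul_div_cancel_left _ (by positivity)]

theorem fold_bound (s x : ℕ) (hx : x < 2 ^ (2 * s)) : x % 2 ^ s + x / 2 ^ s ≤ 2 * (2 ^ s - 1) := by
  have h1 : x % 2 ^ s < 2 ^ s := Nat.mod_lt _ (by positivity)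
  have h2 : x / 2 ^ s < 2 ^ s := by
    rw [Nat.div_lt_iff_lt_mul (by positivity), ← pow_add, ← two_mul]
    exact hx
  omega

theorem fold_cast (s x : ℕ) (hs : 2 ^ s % 7 = 1) :
    ((x % 2 ^ s + x / 2 ^ s : ℕ) : ZMod 7) = (x : ZMod 7) := by
  have h1 : ((2 ^ s : ℕ) : ZMod 7) = 1 := by
    have := (ZMod.natCast_eq_natCast_iff (2 ^ s) 1 7).2 hs
    simpa using this
  conv_rhs => rw [← Nat.mod_add_div x (2 ^ s)]
  rw [Nat.cast_add, Nat.cast_add, Nat.cast_mul, h1, one_mul]

end Pool.Agent.Work.MP_bde882_al.Pk
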