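import Mathlib

/-!
Packed linear algebra over `ZMod 7` with natural numbers: lanes of `W` bits.
-/

set_option autoImplicit false

namespace Pool.Agent.Work.MP_bde882_al.Pk

open Finset

/-- the number with digits `a 0, a 1, ...` in base `2 ^ W` (`n` digits) -/
def lanes (W : ℕ) (a : ℕ → ℕ) (n : ℕ) : ℕ := ∑ i ∈ range n, a i * 2 ^ (W * i)

theorem lanes_zero (W : ℕ) (a : ℕ → ℕ) : lanes W a 0 = 0 := by simp [lanes]

theorem lanes_succ (W : ℕ) (a : ℕ → ℕ) (n : ℕ) :
    lanes W a (n + 1) = lanes W a n + a n * 2 ^ (W * n) := by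
  simp [lanes, sum_range_succ]

theorem lanes_succ' (W : ℕ) (a : ℕ → ℕ) (n : ℕ) :
    lanes W a (n + 1) = a 0 + 2 ^ W * lanes W (fun i => a (i + 1)) n := by
  unfold lanes
  rw [sum_range_succ', mul_sum, add_comm]
  congr 1
  · simp
  · refine sum_congr rfl ?_
    intro i _
    rw [Nat.mul_add, mul_one, pow_add]
    ring

theorem lanes_congr (W : ℕ) {a b : ℕ → ℕ} {n : ℕ} (h : ∀ i < n, a i = b i) :
    lanes W a n = lanes W b n := by
  unfold lanes
  refine sum_congr rfl ?_
  intro i hi
  rw [h i (mem_range.1 hi)]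

theorem lanes_lt (W : ℕ) (a : ℕ → ℕ) (n : ℕ) (h : ∀ i < n, a i < 2 ^ W) :
    lanes W a n < 2 ^ (W * n) := by
  induction n with
  | zero => simp [lanes]
  | succ n ih =>
    rw [lanes_succ, Nat.mul_succ, pow_add]
    have h1 := ih (fun i hi => h i (by omega))
    have h2 := h n (by omega)
    have h3 : a n * 2 ^ (W * n) ≤ (2 ^ W - 1) * 2 ^ (W * n) := Nat.mul_le_mul_right _ (by omega)
    have h4 : (2 ^ W - 1) * 2 ^ (W * n) = 2 ^ (W * n) * 2 ^ W - 2 ^ (W * n) := by
      rw [Nat.sub_mul, one_mul, mul_comm]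
    have h5 : 2 ^ (W * n) ≤ 2 ^ (W * n) * 2 ^ W := Nat.le_mul_of_pos_right _ (by positivity)
    omega

theorem lanes_add (W : ℕ) (a b : ℕ → ℕ) (n : ℕ) :
    lanes W a n + lanes W b n = lanes W (fun i => a i + b i) n := by
  simp [lanes, add_mul, sum_add_distrib]

theorem lanes_mul (W : ℕ) (a : ℕ → ℕ) (n c : ℕ) :
    lanes W a n * c = lanes W (fun i => a i * c) n := by
  unfold lanes
  rw [sum_mul]
  refine sum_congr rfl ?_
  intro i _
  ring

/-- digits are unique -/
theorem lanes_inj (W : ℕ) {a b : ℕ → ℕ} {n : ℕ} (ha : ∀ i < n, a i < 2 ^ W)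
    (hb : ∀ i < n, b i < 2 ^ W) (h : lanes W a n = lanes W b n) : ∀ i < n, a i = b i := by
  induction n generalizing a b with
  | zero => intro i hi; omega
  | succ n ih =>
    rw [lanes_succ', lanes_succ'] at h
    have h1 : a 0 = b 0 := by
      have := congrArg (· % 2 ^ W) h
      simp only [Nat.add_mul_mod_self_left] at this
      rwa [Nat.mod_eq_of_lt (ha 0 (by omega)), Nat.mod_eq_of_lt (hb 0 (by omega))] at this
    rw [h1] at h
    have h2 : lanes W (fun i => a (i + 1)) n = lanes W (fun i => b (i + 1)) n := by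
      have := Nat.add_left_cancel h
      exact Nat.eq_of_mul_eq_mul_left (by positivity) this
    have h3 := ih (fun i hi => ha (i + 1) (by omega)) (fun i hi => hb (i + 1) (by omega)) h2
    intro i hi
    rcases i with _ | i
    · exact h1
    · exact h3 i (by omega)

/-- bitwise and of two numbers split at bit `k` -/
theorem land_split (k a b c d : ℕ) (ha : a < 2 ^ k) (hc : c < 2 ^ k) :
    (a + 2 ^ k * b) &&& (c + 2 ^ k * d) = (a &&& c) + 2 ^ k * (b &&& d) := by
  have hac : a &&& c < 2 ^ k := Nat.and_lt_two_pow _ hc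
  apply Nat.eq_of_testBit_eq
  intro j
  rw [Nat.testBit_and, add_comm a, add_comm c, add_comm (a &&& c), Nat.testBit_two_pow_mul_add _ ha,
    Nat.testBit_two_pow_mul_add _ hc, Nat.testBit_two_pow_mul_add _ hac]
  by_cases h : j < k
  · simp [h, Nat.testBit_and]
  · simp [h, Nat.testBit_and]

theorem land_lanes (W : ℕ) (a b : ℕ → ℕ) (n : ℕ) (ha : ∀ i < n, a i < 2 ^ W)
    (hb : ∀ i < n, b i < 2 ^ W) :
    lanes W a n &&& lanes W b n = lanes W (fun i => a i &&& b i) n := by
  induction n generalizing a b with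
  | zero => simp [lanes]
  | succ n ih =>
    rw [lanes_succ', lanes_succ', land_split _ _ _ _ _ (ha 0 (by omega)) (hb 0 (by omega)),
      ih _ _ (fun i hi => ha (i + 1) (by omega)) (fun i hi => hb (i + 1) (by omega)), lanes_succ']

open Polynomial in
theorem lanes_mul_lanes (t : ℕ) (a b : ℕ → ℕ) (n : ℕ) :
    lanes t a n * lanes t b n
      = lanes t (fun k => ∑ x ∈ antidiagonal k,
          (if x.1 < n then a x.1 else 0) * (if x.2 < n then b x.2 else 0)) (2 * n) := by
  have key : ∀ c : ℕ → ℕ, ∀ k, (∑ i ∈ range n, (C (c i) * X ^ i : ℕ[X])).coeff k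
      = if k < n then c k else 0 := by
    intro c k
    rw [finsetSum_coeff]
    simp only [coeff_C_mul, coeff_X_pow, mul_ite, mul_one, mul_zero]
    rw [sum_ite_eq]
    simp
  have hev : ∀ c : ℕ → ℕ, lanes t c n = (∑ i ∈ range n, (C (c i) * X ^ i : ℕ[X])).eval (2 ^ t) := by
    intro c
    rw [eval_finsetSum]
    unfold lanes
    refine sum_congr rfl ?_
    intro i _
    simp [pow_mul]
  have hdeg : ∀ c : ℕ → ℕ, (∑ i ∈ range n, (C (c i) * X ^ i : ℕ[X])).natDegree ≤ n - 1 := by
    intro c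
    refine natDegree_sum_le_of_forall_le _ _ ?_
    intro i hi
    have := mem_range.1 hi
    exact (natDegree_C_mul_X_pow_le _ _).trans (by omega)
  rw [hev a, hev b, ← eval_mul]
  rcases Nat.eq_zero_or_pos n with rfl | hn
  · simp [lanes]
  rw [eval_eq_sum_range' (n := 2 * n)]
  · unfold lanes
    refine sum_congr rfl ?_
    intro k _
    rw [coeff_mul, pow_mul]
    congr 1
    refine sum_congr rfl ?_
    intro x _
    rw [key, key]
  · refine lt_of_le_of_lt natDegree_mul_le ?_
    have := hdeg a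
    have := hdeg b
    omega

theorem lanes_split (t : ℕ) (f : ℕ → ℕ) (n m : ℕ) :
    lanes t f (n + m) = lanes t f n + 2 ^ (t * n) * lanes t (fun i => f (n + i)) m := by
  unfold lanes
  rw [sum_range_add, mul_sum]
  congr 1
  refine sum_congr rfl ?_
  intro i _
  rw [Nat.mul_add, pow_add]
  ring

/-- extraction of a digit -/
theorem digit_spec (t : ℕ) (f : ℕ → ℕ) (n k : ℕ) (hk : k < n) (hf : ∀ i ≤ k, f i < 2 ^ t) :
    lanes t f n / 2 ^ (t * k) % 2 ^ t = f k := by
  obtain ⟨m, rfl⟩ : ∃ m, n = k + (m + 1) := ⟨n - k - 1, by omega⟩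
  rw [lanes_split, lanes_succ']
  have h1 := lanes_lt t f k (fun i hi => hf i hi.le)
  rw [Nat.add_mul_div_left _ _ (by positivity), Nat.div_eq_of_lt h1, zero_add]
  rw [Nat.add_mul_mod_self_left, Nat.mod_eq_of_lt]
  · rfl
  · exact hf k le_rfl

theorem lanes_le (W : ℕ) (a b : ℕ → ℕ) (n : ℕ) (h : ∀ i < n, a i ≤ b i) :
    lanes W a n ≤ lanes W b n := by
  unfold lanes
  exact sum_le_sum (fun i hi => Nat.mul_le_mul_right _ (h i (mem_range.1 hi)))

/-- **Product of a packed matrix with a spread vector.** -/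
theorem mulv_spec (W m n t b c : ℕ) (M : ℕ → ℕ → ℕ) (v : ℕ → ℕ)
    (hM : ∀ i < m, ∀ j < n, M i j ≤ c) (hv : ∀ j < n, v j ≤ b) (hb : n * (c * b) < 2 ^ W)
    (ht : W * m ≤ t) (hn : 0 < n) :
    lanes t (fun i => lanes W (fun r => M r (n - 1 - i)) m) n * lanes t v n / 2 ^ (t * (n - 1)) % 2 ^ t
      = lanes W (fun r => ∑ j ∈ range n, M r j * v j) m := by
  set col : ℕ → ℕ := fun i => lanes W (fun r => M r (n - 1 - i)) m with hcol
  have hcb : ∀ i < n, col i ≤ lanes W (fun _ => c) m := by
    intro i hi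
    exact lanes_le _ _ _ _ (fun r hr => hM r hr _ (by omega))
  rw [lanes_mul_lanes, digit_spec]
  · rw [Nat.sum_antidiagonal_eq_sum_range_succ_mk]
    have hn1 : (n - 1).succ = n := by omega
    rw [hn1, ← sum_range_reflect]
    have h1 : ∀ j ∈ range n, (if n - 1 - j < n then col (n - 1 - j) else 0)
        * (if n - 1 - (n - 1 - j) < n then v (n - 1 - (n - 1 - j)) else 0)
        = lanes W (fun r => M r j * v j) m := by
      intro j hj
      have hj := mem_range.1 hj
      have e : n - 1 - (n - 1 - j) = j := by omega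
      rw [if_pos (by omega), e, if_pos hj, hcol]
      simp only [e]
      rw [lanes_mul]
    rw [sum_congr rfl h1]
    unfold lanes
    rw [sum_comm]
    refine sum_congr rfl ?_
    intro r _
    rw [sum_mul]
  · omega
  · intro k hk
    have h2 : ∑ x ∈ antidiagonal k, (if x.1 < n then col x.1 else 0) * (if x.2 < n then v x.2 else 0)
        ≤ ∑ x ∈ antidiagonal k, lanes W (fun _ => c) m * b := by
      refine sum_le_sum ?_
      intro x _
      by_cases h3 : x.1 < n
      · by_cases h4 : x.2 < n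
        · rw [if_pos h3, if_pos h4]
          exact Nat.mul_le_mul (hcb _ h3) (hv _ h4)
        · rw [if_neg h4, mul_zero]
          exact Nat.zero_le _
      · rw [if_neg h3, zero_mul]
        exact Nat.zero_le _
    refine lt_of_le_of_lt h2 ?_
    rw [sum_const, Nat.card_antidiagonal, smul_eq_mul, lanes_mul]
    have h5 : (k + 1) * lanes W (fun _ => c * b) m ≤ lanes W (fun _ => n * (c * b)) m := by
      rw [mul_comm (k + 1), lanes_mul]
      refine lanes_le _ _ _ _ ?_
      intro i _
      rw [mul_comm (c * b)]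
      exact Nat.mul_le_mul_right _ (by omega)
    refine lt_of_le_of_lt h5 ?_
    refine lt_of_lt_of_le (lanes_lt W _ m (fun i _ => hb)) ?_
    exact Nat.pow_le_pow_right (by norm_num) ht

theorem lanes_const_mul (W : ℕ) (a : ℕ → ℕ) (n c : ℕ) :
    c * lanes W a n = lanes W (fun i => c * a i) n := by
  rw [mul_comm, lanes_mul]
  simp [mul_comm]

theorem lanes_shift (W : ℕ) (a : ℕ → ℕ) (n s : ℕ) (h : ∀ i < n, 2 ^ s ∣ a i) :
    lanes W a n / 2 ^ s = lanes W (fun i => a i / 2 ^ s) n := by
  have h1 : lanes W a n = 2 ^ s * lanes W (fun i => a i / 2 ^ s) n := by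
    rw [lanes_const_mul]
    refine lanes_congr _ ?_
    intro i hi
    exact (Nat.mul_div_cancel' (h i hi)).symm
  rw [h1, Nat.mul_div_cancel_left _ (by positivity)]

theorem land_low (W x : ℕ) : x &&& (2 ^ W - 1) = x % 2 ^ W := Nat.and_two_pow_sub_one_eq_mod x W

/-- keeping the bits `s, ..., W - 1` -/
theorem land_high (W s x : ℕ) (hs : s ≤ W) (hx : x < 2 ^ W) :
    x &&& (2 ^ W - 2 ^ s) = 2 ^ s * (x / 2 ^ s) := by
  have e1 : x = x % 2 ^ s + 2 ^ s * (x / 2 ^ s) := (Nat.mod_add_div x (2 ^ s)).symm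
  have e2 : 2 ^ W - 2 ^ s = 0 + 2 ^ s * (2 ^ (W - s) - 1) := by
    rw [Nat.mul_sub, mul_one, ← pow_add, Nat.add_sub_cancel' hs, zero_add]
  have h3 : x / 2 ^ s < 2 ^ (W - s) := by
    rw [Nat.div_lt_iff_lt_mul (by positivity), ← pow_add, Nat.sub_add_cancel hs]
    exact hx
  conv_lhs => rw [e1, e2]
  rw [land_split _ _ _ _ _ (Nat.mod_lt _ (by positivity)) (by positivity), land_low,
    Nat.mod_eq_of_lt h3]
  simp

/-- the reduction of one lane -/
def red1 (r s y : ℕ) : ℕ := y - 7 * (y * r / 2 ^ s)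

theorem red1_le (r s y : ℕ) (hr : 7 * r ≤ 2 ^ s) : 7 * (y * r / 2 ^ s) ≤ y := by
  have h1 : y * r / 2 ^ s * 2 ^ s ≤ y * r := Nat.div_mul_le_self _ _
  have h2 : 7 * (y * r / 2 ^ s) * 2 ^ s ≤ y * 2 ^ s := by
    calc 7 * (y * r / 2 ^ s) * 2 ^ s = 7 * (y * r / 2 ^ s * 2 ^ s) := by ring
      _ ≤ 7 * (y * r) := Nat.mul_le_mul_left _ h1
      _ = y * (7 * r) := by ring
      _ ≤ y * 2 ^ s := Nat.mul_le_mul_left _ hr
  exact Nat.le_of_mul_le_mul_right h2 (by positivity)

theorem red1_cast (r s y : ℕ) (hr : 7 * r ≤ 2 ^ s) : ((red1 r s y : ℕ) : ZMod 7) = (y : ZMod 7) := by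
  unfold red1
  rw [Nat.cast_sub (red1_le r s y hr)]
  have h7 : ((7 : ℕ) : ZMod 7) = 0 := ZMod.natCast_self 7
  push_cast at h7 ⊢
  rw [h7]
  ring

/-- size of a reduced lane: if `2 ^ s ≤ 7 * r + 6` and `y ≤ 2 ^ s` the result is at most `12` -/
theorem red1_bound (r s y : ℕ) (hr2 : 2 ^ s ≤ 7 * r + 6) (hy : y ≤ 2 ^ s) :
    red1 r s y ≤ 13 := by
  unfold red1
  set q := y * r / 2 ^ s with hq
  have h1 : y * r < (q + 1) * 2 ^ s := by
    have := Nat.lt_mul_div_succ (y * r) (b := 2 ^ s) (by positivity)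
    rw [← hq] at this
    rw [mul_comm (q + 1)]
    exact this
  -- `y * 2 ^ s ≤ y * (7 r + 6) < 7 (q + 1) 2 ^ s + 6 y ≤ (7 q + 13) 2 ^ s`
  have h2 : y * 2 ^ s < (7 * q + 13) * 2 ^ s := by
    calc y * 2 ^ s ≤ y * (7 * r + 6) := Nat.mul_le_mul_left _ hr2
      _ = 7 * (y * r) + 6 * y := by ring
      _ < 7 * ((q + 1) * 2 ^ s) + 6 * 2 ^ s := by
        have : 6 * y ≤ 6 * 2 ^ s := Nat.mul_le_mul_left _ hy
        omega
      _ = (7 * q + 13) * 2 ^ s := by ring
  have h3 : y < 7 * q + 13 := Nat.lt_of_mul_lt_mul_right h2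
  omega

/-- **Reduction of all lanes.** -/
theorem red_spec (W s r n : ℕ) (y : ℕ → ℕ) (hs : s ≤ W) (hr : 7 * r ≤ 2 ^ s)
    (hy : ∀ i < n, y i * r < 2 ^ W) :
    lanes W y n - 7 * (((lanes W y n * r) &&& lanes W (fun _ => 2 ^ W - 2 ^ s) n) / 2 ^ s)
      = lanes W (fun i => red1 r s (y i)) n := by
  rw [lanes_mul, land_lanes _ _ _ _ hy (fun i _ => Nat.sub_lt (by positivity) (by positivity)),
    lanes_congr W (b := fun i => 2 ^ s * (y i * r / 2 ^ s))
      (fun i hi => land_high W s _ hs (hy i hi)), lanes_shift _ _ _ _ (fun i _ => dvd_mul_right _ _)]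
  have h1 : lanes W (fun i => 2 ^ s * (y i * r / 2 ^ s) / 2 ^ s) n
      = lanes W (fun i => y i * r / 2 ^ s) n :=
    lanes_congr _ (fun i _ => Nat.mul_div_cancel_left _ (by positivity))
  rw [h1, lanes_const_mul]
  have h2 : lanes W y n = lanes W (fun i => red1 r s (y i)) n
      + lanes W (fun i => 7 * (y i * r / 2 ^ s)) n := by
    rw [lanes_add]
    refine lanes_congr _ ?_
    intro i _
    unfold red1
    exact (Nat.sub_add_cancel (red1_le r s _ hr)).symm
  omega

/-- the numbers used by the spreading multiplication -/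
theorem spread_spec (W t n : ℕ) (v : ℕ → ℕ) (hv : ∀ i < n, v i < 2 ^ W) (ht : W * (n + 1) ≤ t) :
    (lanes W v n * lanes (t - W) (fun _ => 1) n) &&& lanes t (fun _ => 2 ^ W - 1) n
      = lanes t v n := by
  rcases Nat.eq_zero_or_pos n with rfl | hn
  · simp [lanes]
  rcases Nat.eq_zero_or_pos W with rfl | hW
  · have hv0 : ∀ i < n, v i = 0 := by
      intro i hi
      have := hv i hi
      simpa using this
    rw [lanes_congr t (b := fun _ => 0) hv0, lanes_congr 0 (b := fun _ => 0) hv0]
    simp [lanes]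
  set V := lanes W v n with hV
  have hVlt : V < 2 ^ (W * n) := lanes_lt W v n hv
  -- blocks
  have hWt : W ≤ t := by
    have : W * 1 ≤ W * (n + 1) := Nat.mul_le_mul_left _ (by omega)
    omega
  let low : ℕ → ℕ := fun j => V % 2 ^ (W * j)
  let hi : ℕ → ℕ := fun j => V / 2 ^ (W * j)
  let blk : ℕ → ℕ := fun j => hi j + if j + 1 < n then low (j + 1) * 2 ^ (t - W * (j + 1)) else 0
  have hexp : ∀ j ≤ n, W * (j + 1) ≤ t := by
    intro j hj
    have : W * (j + 1) ≤ W * (n + 1) := Nat.mul_le_mul_left _ (by omega)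
    omega
  have hterm : ∀ j, j + 1 ≤ n → V * 2 ^ ((t - W) * (j + 1))
      = low (j + 1) * 2 ^ (t - W * (j + 1)) * 2 ^ (t * j) + hi (j + 1) * 2 ^ (t * (j + 1)) := by
    intro j hj
    have e1 : V = low (j + 1) + 2 ^ (W * (j + 1)) * hi (j + 1) := (Nat.mod_add_div _ _).symm
    have hle : W * (j + 1) ≤ t := hexp j (by omega)
    have e2 : (t - W) * (j + 1) = (t - W * (j + 1)) + t * j := by
      have h1 : (t - W) * (j + 1) = t * (j + 1) - W * (j + 1) := Nat.sub_mul _ _ _
      rw [h1, Nat.mul_succ]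
      omega
    have e3 : W * (j + 1) + ((t - W * (j + 1)) + t * j) = t * (j + 1) := by
      rw [Nat.mul_succ t]
      omega
    conv_lhs => rw [e1, e2]
    rw [← e3, pow_add, pow_add]
    ring
  have hprod : V * lanes (t - W) (fun _ => 1) n = lanes t blk n := by
    have hgen : ∀ k, k < n → V * lanes (t - W) (fun _ => 1) (k + 1)
        = lanes t (fun j => hi j + if j + 1 < k + 1 then low (j + 1) * 2 ^ (t - W * (j + 1)) else 0) (k + 1) := by
      intro k
      induction k with
      | zero =>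
        intro _
        simp [lanes, hi]
      | succ k ih =>
        intro hk
        rw [lanes_succ, Nat.mul_add, ih (by omega), one_mul, hterm k (by omega), lanes_succ t _ (k + 1),
          lanes_succ t _ k, lanes_succ t _ k]
        have h1 : lanes t (fun j => hi j + if j + 1 < k + 1 then low (j + 1) * 2 ^ (t - W * (j + 1)) else 0) k
            = lanes t (fun j => hi j + if j + 1 < k + 1 + 1 then low (j + 1) * 2 ^ (t - W * (j + 1)) else 0) k := by
          refine lanes_congr _ ?_
          intro j hj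
          rw [if_pos (by omega), if_pos (by omega)]
        rw [h1]
        simp only [lt_self_iff_false, if_false, add_zero]
        rw [if_pos (by omega)]
        ring
    have := hgen (n - 1) (by omega)
    rw [show n - 1 + 1 = n by omega] at this
    exact this
  have hblk : ∀ j < n, blk j < 2 ^ t := by
    intro j hj
    have h1 : hi j < 2 ^ (W * (n - j)) := by
      change V / 2 ^ (W * j) < _
      rw [Nat.div_lt_iff_lt_mul (by positivity), ← pow_add, ← Nat.mul_add, Nat.sub_add_cancel hj.le]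
      exact hVlt
    by_cases h : j + 1 < n
    · have h2 : blk j = hi j + low (j + 1) * 2 ^ (t - W * (j + 1)) := by
        change hi j + (if j + 1 < n then _ else 0) = _
        rw [if_pos h]
      have hle : W * (j + 1) ≤ t := hexp j (by omega)
      have h3 : low (j + 1) + 1 ≤ 2 ^ (W * (j + 1)) := Nat.mod_lt _ (by positivity)
      have h4 : (low (j + 1) + 1) * 2 ^ (t - W * (j + 1)) ≤ 2 ^ t := by
        calc (low (j + 1) + 1) * 2 ^ (t - W * (j + 1))
            ≤ 2 ^ (W * (j + 1)) * 2 ^ (t - W * (j + 1)) := Nat.mul_le_mul_right _ h3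
          _ = 2 ^ t := by rw [← pow_add, Nat.add_sub_cancel' hle]
      have h5 : hi j < 2 ^ (t - W * (j + 1)) := by
        refine lt_of_lt_of_le h1 (Nat.pow_le_pow_right (by norm_num) ?_)
        have h6 : W * (n - j) + W * (j + 1) = W * (n + 1) := by
          rw [← Nat.mul_add]
          congr 1
          omega
        omega
      rw [h2]
      rw [add_mul, one_mul] at h4
      omega
    · have h2 : blk j = hi j := by
        change hi j + (if j + 1 < n then _ else 0) = _
        rw [if_neg h, add_zero]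
      rw [h2]
      refine lt_of_lt_of_le h1 (Nat.pow_le_pow_right (by norm_num) ?_)
      have : W * (n - j) ≤ W * (n + 1) := Nat.mul_le_mul_left _ (by omega)
      omega
  rw [hprod, land_lanes t blk _ n hblk (fun i _ => ?_)]
  · refine lanes_congr _ ?_
    intro j hj
    rw [land_low]
    have h1 : hi j % 2 ^ W = v j := by
      have := digit_spec W v n j hj (fun i hi' => hv i (by omega))
      exact this
    by_cases h : j + 1 < n
    · have h2 : blk j = hi j + low (j + 1) * 2 ^ (t - W * (j + 1)) := by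
        change hi j + (if j + 1 < n then _ else 0) = _
        rw [if_pos h]
      have h3 : 2 ^ W ∣ low (j + 1) * 2 ^ (t - W * (j + 1)) := by
        refine Dvd.dvd.mul_left (pow_dvd_pow 2 ?_) _
        have : W * (j + 1) + W = W * (j + 2) := by ring
        have h4 : W * (j + 2) ≤ W * (n + 1) := Nat.mul_le_mul_left _ (by omega)
        omega
      obtain ⟨z, hz⟩ := h3
      rw [h2, hz, Nat.add_mul_mod_self_left, h1]
    · have h2 : blk j = hi j := by
        change hi j + (if j + 1 < n then _ else 0) = _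
        rw [if_neg h, add_zero]
      rw [h2, h1]
  · calc 2 ^ W - 1 < 2 ^ W := Nat.sub_lt (by positivity) (by norm_num)
      _ ≤ 2 ^ t := Nat.pow_le_pow_right (by norm_num) hWt

/-- **Test that all lanes are divisible by `7`.** -/
theorem ztest_spec (W n : ℕ) (y : ℕ → ℕ) (hW : 3 ≤ W) (hy : ∀ i < n, y i < 2 ^ W)
    (h7 : lanes W y n % 7 = 0)
    (hl : (lanes W y n / 7) &&& lanes W (fun _ => 2 ^ W - 2 ^ (W - 3)) n = 0) :
    ∀ i < n, y i % 7 = 0 := by
  set N := lanes W y n with hN
  set Q := N / 7 with hQ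
  have hQlt : Q < 2 ^ (W * n) := lt_of_le_of_lt (Nat.div_le_self _ _) (lanes_lt W y n hy)
  -- digits of `Q`
  have hdig : ∀ (m : ℕ) (x : ℕ), x < 2 ^ (W * m) → ∃ a : ℕ → ℕ, (∀ i, a i < 2 ^ W) ∧ x = lanes W a m := by
    intro m
    induction m with
    | zero =>
      intro x hx
      refine ⟨fun _ => 0, fun _ => by positivity, ?_⟩
      simp at hx
      simp [lanes, hx]
    | succ m ih =>
      intro x hx
      obtain ⟨a, ha, hx'⟩ := ih (x / 2 ^ W) (by
        rw [Nat.div_lt_iff_lt_mul (by positivity), ← pow_add]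
        rwa [Nat.mul_succ] at hx)
      refine ⟨fun i => if i = 0 then x % 2 ^ W else a (i - 1), ?_, ?_⟩
      · intro i
        dsimp only
        split_ifs
        · exact Nat.mod_lt _ (by positivity)
        · exact ha _
      · rw [lanes_succ']
        simp only [if_true, Nat.add_eq_zero_iff, one_ne_zero, and_false, if_false, Nat.add_sub_cancel]
        rw [← hx']
        exact (Nat.mod_add_div x (2 ^ W)).symm
  obtain ⟨a, ha, hQa⟩ := hdig n Q hQlt
  rw [hQa, land_lanes _ _ _ _ (fun i _ => ha i) (fun i _ => Nat.sub_lt (by positivity) (by positivity))] at hl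
  have ha3 : ∀ i < n, a i < 2 ^ (W - 3) := by
    intro i hi
    have h1 : a i &&& (2 ^ W - 2 ^ (W - 3)) = 0 := by
      unfold lanes at hl
      rw [sum_eq_zero_iff] at hl
      have := hl i (mem_range.2 hi)
      rcases Nat.mul_eq_zero.1 this with h | h
      · exact h
      · exact absurd h (by positivity)
    rw [land_high W (W - 3) _ (by omega) (ha i)] at h1
    rcases Nat.mul_eq_zero.1 h1 with h | h
    · exact absurd h (by positivity)
    · exact (Nat.div_eq_zero_iff_lt (by positivity)).1 h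
  have h8 : 2 ^ W = 2 ^ (W - 3) * 8 := by
    rw [show (8 : ℕ) = 2 ^ 3 by norm_num, ← pow_add, Nat.sub_add_cancel hW]
  have hN7 : N = lanes W (fun i => 7 * a i) n := by
    rw [← lanes_const_mul, ← hQa]
    have := Nat.div_add_mod N 7
    omega
  have h9 := lanes_inj W hy (fun i hi => by
    have := ha3 i hi
    show 7 * a i < 2 ^ W
    omega) (hN.symm.trans hN7)
  intro i hi
  rw [h9 i hi]
  exact Nat.mul_mod_right 7 _

end Pool.Agent.Work.MP_bde882_al.Pk
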