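import Pool.Agent.Work.MP_bde882_al_h40.Mv

/-!
Packed vectors and matrices over `ZMod 7`: relations between numbers and coordinates.
-/

set_option autoImplicit false

namespace Pool.Agent.Work.MP_bde882_al.Pk

open Finset

/-- `y` packs the coordinates `v 0, ..., v (n - 1)`, with lanes at most `b` -/
def Rep (W n b y : ℕ) (v : ℕ → ZMod 7) : Prop :=
  ∃ a : ℕ → ℕ, y = lanes W a n ∧ ∀ t < n, a t ≤ b ∧ ((a t : ℕ) : ZMod 7) = v t

/-- `A` packs the matrix `M` (`r` rows, `k` columns, rows reversed at stride `K`), lanes at most `c` -/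
def MRep (W K r k c A : ℕ) (M : ℕ → ℕ → ZMod 7) : Prop :=
  ∃ a : ℕ → ℕ, A = lanes W a (K * r) ∧ (∀ l < K * r, a l ≤ c) ∧
    ∀ i < r, ∀ t < k, ((a (K * i + (K - 1) - t) : ℕ) : ZMod 7) = M i t

/-- packed matrix times packed vector; `mk = topMask W K r`, `md = 2 ^ (W * (K - 1)) - 1` -/
def mv (mk md A y : ℕ) : ℕ := Nat.mod (Nat.land (Nat.mul A y) mk) md

/-- folding; `M15 = lanes (2 s) (2 ^ s - 1) n` -/
def fold (s m y : ℕ) : ℕ := Nat.add (Nat.land y m) (Nat.land (Nat.shiftRight y s) m)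

theorem Rep.mono {W n b b' y : ℕ} {v : ℕ → ZMod 7} (h : Rep W n b y v) (hb : b ≤ b') :
    Rep W n b' y v := by
  obtain ⟨a, e, ha⟩ := h
  exact ⟨a, e, fun t ht => ⟨(ha t ht).1.trans hb, (ha t ht).2⟩⟩

theorem Rep.congr {W n b y : ℕ} {v v' : ℕ → ZMod 7} (h : Rep W n b y v) (hv : ∀ t < n, v t = v' t) :
    Rep W n b y v' := by
  obtain ⟨a, e, ha⟩ := h
  exact ⟨a, e, fun t ht => ⟨(ha t ht).1, (ha t ht).2.trans (hv t ht)⟩⟩

theorem Rep.zero (W n : ℕ) (v : ℕ → ZMod 7) (hv : ∀ t < n, v t = 0) : Rep W n 0 0 v :=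
  ⟨fun _ => 0, (lanes_eq_zero_of W _ n (fun _ _ => rfl)).symm, fun t ht => ⟨le_rfl, by rw [hv t ht]; simp⟩⟩

theorem Rep.add {W n b b' y y' : ℕ} {v v' : ℕ → ZMod 7} (h : Rep W n b y v) (h' : Rep W n b' y' v') :
    Rep W n (b + b') (Nat.add y y') (fun t => v t + v' t) := by
  obtain ⟨a, e, ha⟩ := h
  obtain ⟨a', e', ha'⟩ := h'
  refine ⟨fun t => a t + a' t, ?_, ?_⟩
  · rw [e, e']
    exact lanes_add W a a' n
  · intro t ht
    refine ⟨Nat.add_le_add (ha t ht).1 (ha' t ht).1, ?_⟩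
    push_cast
    rw [(ha t ht).2, (ha' t ht).2]

theorem Rep.smul {W n b y : ℕ} {v : ℕ → ZMod 7} (c : ℕ) (h : Rep W n b y v) :
    Rep W n (c * b) (Nat.mul c y) (fun t => (c : ZMod 7) * v t) := by
  obtain ⟨a, e, ha⟩ := h
  refine ⟨fun t => c * a t, ?_, ?_⟩
  · rw [e]
    exact lanes_const_mul W a n c
  · intro t ht
    refine ⟨Nat.mul_le_mul_left _ (ha t ht).1, ?_⟩
    push_cast
    rw [(ha t ht).2]

/-- **Soundness of the packed product.** -/
theorem Rep.mv {W K r k c b A y : ℕ} {M : ℕ → ℕ → ZMod 7} {v : ℕ → ZMod 7}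
    (hM : MRep W K r k c A M) (hy : Rep W k b y v) (hk : k ≤ K) (hr : r + 1 ≤ K)
    (hb : k * (c * b) + 1 < 2 ^ W) :
    Rep W r (k * (c * b)) (mv (topMask W K r) (2 ^ (W * (K - 1)) - 1) A y)
      (fun i => ∑ t ∈ range k, M i t * v t) := by
  obtain ⟨a, eA, ha, haM⟩ := hM
  obtain ⟨u, eu, hu⟩ := hy
  refine ⟨fun i => ∑ t ∈ range k, a (K * i + (K - 1) - t) * u t, ?_, ?_⟩
  · have := mv_spec W K r k c b a u hk hr ha (fun t ht => (hu t ht).1) hb
    rw [← eA, ← eu] at this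
    exact this
  · intro i hi
    have hi' : K * (i + 1) ≤ K * r := Nat.mul_le_mul_left _ hi
    rw [Nat.mul_succ] at hi'
    constructor
    · calc ∑ t ∈ range k, a (K * i + (K - 1) - t) * u t ≤ ∑ _t ∈ range k, c * b := by
            refine sum_le_sum ?_
            intro t ht
            have ht := mem_range.1 ht
            exact Nat.mul_le_mul (ha _ (by omega)) (hu t ht).1
        _ = k * (c * b) := by simp
    · push_cast
      refine sum_congr rfl ?_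
      intro t ht
      have ht := mem_range.1 ht
      rw [haM i hi t ht, (hu t ht).2]

/-- **Soundness of folding.** -/
theorem Rep.fold {s n b y : ℕ} {v : ℕ → ZMod 7} (hy : Rep (2 * s) n b y v) (hs : 2 ^ s % 7 = 1)
    (hb : b < 2 ^ (2 * s)) :
    Rep (2 * s) n (2 * (2 ^ s - 1)) (fold s (lanes (2 * s) (fun _ => 2 ^ s - 1) n) y) v := by
  obtain ⟨a, e, ha⟩ := hy
  refine ⟨fun i => a i % 2 ^ s + a i / 2 ^ s, ?_, ?_⟩
  · rw [← fold_spec s n a (fun i hi => lt_of_le_of_lt (ha i hi).1 hb), e]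
    change (_ &&& _) + ((_ >>> s) &&& _) = _
    rw [Nat.shiftRight_eq_div_pow]
  · intro t ht
    refine ⟨fold_bound s _ (lt_of_le_of_lt (ha t ht).1 hb), ?_⟩
    rw [fold_cast s _ hs, (ha t ht).2]

/-- zero test; `hm = lanes W (2 ^ W - 2 ^ (W - 3)) n` -/
def ztest (hm y : ℕ) : Bool :=
  and (Nat.beq (Nat.mod y 7) 0) (Nat.beq (Nat.land (Nat.div y 7) hm) 0)

theorem Rep.eq_zero {W n b y : ℕ} {v : ℕ → ZMod 7} (hy : Rep W n b y v) (hW : 3 ≤ W)
    (hb : b < 2 ^ W) (h : ztest (lanes W (fun _ => 2 ^ W - 2 ^ (W - 3)) n) y = true) :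
    ∀ t < n, v t = 0 := by
  obtain ⟨a, e, ha⟩ := hy
  unfold ztest at h
  rw [Bool.and_eq_true, e] at h
  have h7 := ztest_spec W n a hW (fun i hi => lt_of_le_of_lt (ha i hi).1 hb)
    (Nat.eq_of_beq_eq_true h.1) (Nat.eq_of_beq_eq_true h.2)
  intro t ht
  rw [← (ha t ht).2]
  have := (ZMod.natCast_eq_natCast_iff (a t) 0 7).2 (h7 t ht)
  simpa using this

/-- a number that is literally packed -/
theorem Rep.of_lane {W n b y : ℕ} (hy : y < 2 ^ (W * n)) (hb : ∀ t < n, lane W y t ≤ b) :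
    Rep W n b y (fun t => ((lane W y t : ℕ) : ZMod 7)) :=
  ⟨lane W y, (lanes_lane W y n hy).symm, fun t ht => ⟨hb t ht, rfl⟩⟩

theorem MRep.of_lane {W K r k c A : ℕ} (hA : A < 2 ^ (W * (K * r))) (hc : ∀ l < K * r, lane W A l ≤ c) :
    MRep W K r k c A (fun i t => ((lane W A (K * i + (K - 1) - t) : ℕ) : ZMod 7)) :=
  ⟨lane W A, (lanes_lane W A _ hA).symm, hc, fun _ _ _ _ => rfl⟩

theorem MRep.congr {W K r k c A : ℕ} {M M' : ℕ → ℕ → ZMod 7} (h : MRep W K r k c A M)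
    (hM : ∀ i < r, ∀ t < k, M i t = M' i t) : MRep W K r k c A M' := by
  obtain ⟨a, e, ha, hm⟩ := h
  exact ⟨a, e, ha, fun i hi t ht => (hm i hi t ht).trans (hM i hi t ht)⟩

/-- the lanes of a packed matrix are the entries -/
theorem MRep.lane_eq {W K r k c A : ℕ} {M : ℕ → ℕ → ZMod 7} (h : MRep W K r k c A M) (hc : c < 2 ^ W)
    (hk : k ≤ K) {i t : ℕ} (hi : i < r) (ht : t < k) :
    ((lane W A (K * i + (K - 1) - t) : ℕ) : ZMod 7) = M i t := by
  obtain ⟨a, e, ha, hm⟩ := h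
  have hi' : K * (i + 1) ≤ K * r := Nat.mul_le_mul_left _ hi
  rw [Nat.mul_succ] at hi'
  rw [e, lane_lanes W a _ _ (by omega) (fun j hj => lt_of_le_of_lt (ha j hj) hc), hm i hi t ht]

end Pool.Agent.Work.MP_bde882_al.Pk
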